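import Pool.Agent.H252.VR.Comp

/-!
# The concrete ambient algebra, the translation action and its Rokhlin property
-/

set_option autoImplicit false

namespace Pool.Agent.H252.VR

open scoped ENNReal NNReal BoundedContinuousFunction
open Pool.Agent.Helper133.BT Pool.Agent.Helper133.BU Filter Topology
open Pool.Agent.Y269.GP (HH wp Good ee wp_apply norm_wp_le op_ext mulA oneA op_ext' star_wp ee_apply
  inner_ee proj_mem)
open Pool.Agent.H252.VR.Defs

noncomputable section

/-! ### the concrete ambient algebra -/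

/-- a discrete copy of the space -/
def XXd (S : Sys) : Type := XX S

instance (S : Sys) : TopologicalSpace (XXd S) := ⊥

instance (S : Sys) : DiscreteTopology (XXd S) := ⟨rfl⟩

/-- the ambient algebra -/
abbrev EA (S : Sys) : Type := XXd S →ᵇ BH

open Classical in
/-- the bounded operator valued functions -/
def amb (S : Sys) : Amb S (EA S) where
  ev p :=
    { toFun := fun x => x p
      map_one' := rfl
      map_mul' := fun _ _ => rfl
      map_zero' := rfl
      map_add' := fun _ _ => rfl
      commutes' := fun _ => rfl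
      map_star' := fun _ => rfl }
  inj x y h := BoundedContinuousFunction.ext h
  norm_le x C hC h := (BoundedContinuousFunction.norm_le hC).mpr h
  of x := if h : ∃ C : ℝ, ∀ p, ‖x p‖ ≤ C then
    BoundedContinuousFunction.ofNormedAddCommGroupDiscrete (α := XXd S) x h.choose h.choose_spec
    else 0
  ev_of x C h p := by
    have h' : ∃ C : ℝ, ∀ p, ‖x p‖ ≤ C := ⟨C, h⟩
    rw [dif_pos h']
    rfl

lemma amb_toC (S : Sys) (x : EA S) (P : XX S) : (amb S).toC x P = x P := rfl

/-- composition with a map of the space -/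
def pull {S : Sys} (σ : XX S → XX S) : EA S →⋆ₐ[ℂ] EA S where
  toFun x := x.compContinuous (⟨fun P : XXd S => (σ P : XXd S), continuous_of_discreteTopology⟩ :
    C(XXd S, XXd S))
  map_one' := rfl
  map_mul' := fun _ _ => rfl
  map_zero' := rfl
  map_add' := fun _ _ => rfl
  commutes' := fun _ => rfl
  map_star' := fun _ => rfl

lemma pull_apply {S : Sys} (σ : XX S → XX S) (x : EA S) (P : XX S) : pull σ x P = x (σ P) := rfl

lemma pull_toC {S : Sys} (σ : XX S → XX S) (x : EA S) :
    (amb S).toC (pull σ x) = fun P => (amb S).toC x (σ P) := rfl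

lemma pull_mem {S : Sys} {σ : XX S → XX S}
    (hσ : ∀ (l : ℕ) (T : FF S), Lev S l T → Lev S l (fun P => T (σ P))) {x : EA S}
    (hx : x ∈ A0 (amb S)) : pull σ x ∈ A0 (amb S) := by
  have hc : Continuous (pull σ) :=
    AddMonoidHomClass.continuous_of_bound (pull σ) 1 fun x => by
      rw [one_mul]
      exact NonUnitalStarAlgHom.norm_apply_le (pull σ) x
  have h1 : x ∈ closure ((L0 (amb S) : StarSubalgebra ℂ (EA S)) : Set (EA S)) := hx
  have h2 : pull σ x ∈ closure ((L0 (amb S) : StarSubalgebra ℂ (EA S)) : Set (EA S)) := by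
    refine map_mem_closure hc h1 ?_
    rintro y ⟨l, hl⟩
    exact ⟨l, by rw [pull_toC]; exact hσ l _ hl⟩
  exact h2

/-! ### the group case -/

section Group

variable (G : Type) [Group G] [Fintype G]

/-- an enumeration of the group -/
def hel (c : ℕ) : G :=
  if h : c - 1 < Fintype.card G then (Fintype.equivFin G).symm ⟨c - 1, h⟩ else 1

lemma sum_hel (F : G → ℂ) :
    ∑ c ∈ Finset.Ico 1 (Fintype.card G + 1), F (hel G c) = ∑ x : G, F x := by
  rw [Finset.sum_Ico_eq_sum_range, Nat.add_sub_cancel, Finset.sum_range,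
    ← (Fintype.equivFin G).symm.sum_comp]
  refine Finset.sum_congr rfl fun k _ => ?_
  congr 1
  unfold hel
  have h : 1 + (k : ℕ) - 1 < Fintype.card G := by have := k.2; omega
  rw [dif_pos h]
  congr 1
  apply Fin.ext
  show 1 + (k : ℕ) - 1 = k
  omega

/-- the data for a finite group -/
def SG : Sys where
  I := G
  fin := inferInstance
  ne := ⟨1⟩
  N := Fintype.card G + 1
  two_le := by
    have : 0 < Fintype.card G := Fintype.card_pos_iff.mpr ⟨1⟩
    omega
  s c g := g * hel G c
  bal f i j := by
    rw [sum_hel G fun x => f (i * x), sum_hel G fun x => f (j * x)]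
    exact (Equiv.sum_comp (Equiv.mulLeft i) f).trans (Equiv.sum_comp (Equiv.mulLeft j) f).symm
  cov i j := by
    refine ⟨(Fintype.equivFin G (i⁻¹ * j) : ℕ) + 1, by omega,
      by have := (Fintype.equivFin G (i⁻¹ * j)).2; omega, ?_⟩
    unfold hel
    have h : (Fintype.equivFin G (i⁻¹ * j) : ℕ) + 1 - 1 < Fintype.card G := by
      have := (Fintype.equivFin G (i⁻¹ * j)).2; omega
    rw [dif_pos h]
    have e : (⟨(Fintype.equivFin G (i⁻¹ * j) : ℕ) + 1 - 1, h⟩ : Fin (Fintype.card G)) =
        Fintype.equivFin G (i⁻¹ * j) := Fin.ext (by simp)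
    rw [e, Equiv.symm_apply_apply, mul_inv_cancel_left]

variable {G} in
/-- the component of a point -/
def cmp (P : XX (SG G)) : G := P.2

variable {G} in
/-- a point with a given component -/
def pnt (p : PT (SG G)) (g : G) : XX (SG G) := (p, g)

/-- the translations of the components -/
def sh (k : G) (P : XX (SG G)) : XX (SG G) := pnt P.1 (k⁻¹ * cmp P)

lemma sh_tr (k : G) (m c : ℕ) (P : XX (SG G)) : tr m c (sh G k P) = sh G k (tr m c P) := by
  by_cases hc : c = 0
  · subst hc; rw [tr_zero, tr_zero]
  · rw [tr_pos m hc, tr_pos m hc]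
    refine Prod.ext rfl ?_
    show k⁻¹ * cmp P * hel G c = k⁻¹ * (cmp P * hel G c)
    rw [mul_assoc]

lemma sh_lev (k : G) (l : ℕ) (T : FF (SG G)) (h : Lev (SG G) l T) :
    Lev (SG G) l (fun P => T (sh G k P)) where
  comm m hm P := h.comm m hm _
  shift m hm c hc P := by
    have := h.shift m hm c hc (sh G k P)
    rw [sh_tr] at this
    exact this
  shift' m hm c hc P := by
    have := h.shift' m hm c hc (sh G k P)
    rw [sh_tr] at this
    exact this
  eqv j P := h.eqv j (sh G k P)
  fn i j g := h.fn i j (show (SG G).I from (k⁻¹ * (show G from g) : G))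

/-- the algebra for the group `G` -/
abbrev AG : Type := ↥(A0 (amb (SG G)))

/-- the translation by `k` as an endomorphism -/
def actH (k : G) : AG G →⋆ₐ[ℂ] AG G :=
  StarAlgHom.codRestrict ((pull (sh G k)).comp (A0 (amb (SG G))).subtype) (A0 (amb (SG G)))
    fun x => pull_mem (sh_lev G k) x.2

lemma actH_coe (k : G) (x : AG G) : ((actH G k x : AG G) : EA (SG G)) =
    pull (sh G k) (x : EA (SG G)) := rfl

lemma actH_mul (k l : G) (x : AG G) : actH G (k * l) x = actH G k (actH G l x) := by
  apply Subtype.ext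
  apply BoundedContinuousFunction.ext
  intro P
  show (x : EA (SG G)) (sh G (k * l) P) = (x : EA (SG G)) (sh G l (sh G k P))
  congr 1
  refine Prod.ext rfl ?_
  show (k * l)⁻¹ * cmp P = l⁻¹ * (k⁻¹ * cmp P)
  rw [mul_inv_rev, mul_assoc]

lemma actH_one (x : AG G) : actH G 1 x = x := by
  apply Subtype.ext
  apply BoundedContinuousFunction.ext
  intro P
  show (x : EA (SG G)) (sh G 1 P) = (x : EA (SG G)) P
  congr 1
  refine Prod.ext rfl ?_
  show (1 : G)⁻¹ * cmp P = cmp P
  rw [inv_one, one_mul]

/-- the action -/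
def act : G →* (AG G ≃⋆ₐ[ℂ] AG G) where
  toFun k := StarAlgEquiv.ofStarAlgHom (actH G k) (actH G k⁻¹)
    (by
      refine StarAlgHom.ext fun x => ?_
      show actH G k⁻¹ (actH G k x) = x
      rw [← actH_mul, inv_mul_cancel, actH_one])
    (by
      refine StarAlgHom.ext fun x => ?_
      show actH G k (actH G k⁻¹ x) = x
      rw [← actH_mul, mul_inv_cancel, actH_one])
  map_one' := by
    refine StarAlgEquiv.ext fun x => ?_
    show actH G 1 x = x
    rw [actH_one]
  map_mul' k l := by
    refine StarAlgEquiv.ext fun x => ?_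
    show actH G (k * l) x = actH G k (actH G l x)
    rw [actH_mul]

end Group

end

end Pool.Agent.H252.VR
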