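import Pool.Agent.H252.VR.TC
import Pool.Graph.R_seed8.Y269.GP.Simple

/-!
# The algebra, separability and simplicity
-/

set_option autoImplicit false

namespace Pool.Agent.H252.VR

open scoped ENNReal
open Pool.Agent.Helper133.BT Pool.Agent.Helper133.BU Filter Topology
open Pool.Agent.Y269.GP (HH wp Good ee wp_apply norm_wp_le op_ext mulA oneA op_ext' star_wp ee_apply
  inner_ee proj_mem)

noncomputable section

/-- an algebra of bounded operator valued functions -/
structure Amb (S : Sys) (E : Type) [CStarAlgebra E] where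
  ev : XX S → (E →⋆ₐ[ℂ] BH)
  inj : ∀ x y, (∀ p, ev p x = ev p y) → x = y
  norm_le : ∀ x C, 0 ≤ C → (∀ p, ‖ev p x‖ ≤ C) → ‖x‖ ≤ C
  of : FF S → E
  ev_of : ∀ (x : FF S) (C : ℝ), (∀ p, ‖x p‖ ≤ C) → ∀ p, ev p (of x) = x p

variable {S : Sys}

/-- bounded functions -/
def BF (T : FF S) : Prop := ∃ C : ℝ, ∀ p, ‖T p‖ ≤ C

lemma BF.mul {U T : FF S} (h : BF U) (h' : BF T) : BF (U * T) := by
  obtain ⟨C, hC⟩ := h
  obtain ⟨C', hC'⟩ := h'
  refine ⟨C * C', fun p => ?_⟩
  rw [Pi.mul_apply]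
  have h0 : 0 ≤ C := (norm_nonneg _).trans (hC p)
  calc ‖U p * T p‖ ≤ ‖U p‖ * ‖T p‖ := norm_mul_le _ _
    _ ≤ C * C' := mul_le_mul (hC p) (hC' p) (norm_nonneg _) h0

lemma BF.add {U T : FF S} (h : BF U) (h' : BF T) : BF (U + T) := by
  obtain ⟨C, hC⟩ := h
  obtain ⟨C', hC'⟩ := h'
  exact ⟨C + C', fun p => (norm_add_le _ _).trans (add_le_add (hC p) (hC' p))⟩

lemma BF.zero : BF (0 : FF S) := ⟨0, fun p => by simp⟩

lemma BF.one : BF (1 : FF S) := ⟨‖(1 : BH)‖, fun _ => le_rfl⟩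

lemma BF.sum {ι : Type*} (s : Finset ι) {T : ι → FF S} (h : ∀ i ∈ s, BF (T i)) :
    BF (∑ i ∈ s, T i) := by
  classical
  induction s using Finset.induction_on with
  | empty => simpa using BF.zero
  | insert x s hx ih =>
    rw [Finset.sum_insert hx]
    exact (h x (Finset.mem_insert_self _ _)).add (ih fun i hi => h i (Finset.mem_insert_of_mem hi))

lemma BF.TC {L : ℕ} {φ : XX S → ℂ} (hφ : FN φ) (a b : ℕ) : BF (TC L φ a b) := by
  obtain ⟨C, h0, hC⟩ := hφ.bdd
  exact ⟨C, norm_TC_le hφ h0 hC a b⟩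

lemma Lev.bf {l : ℕ} {T : FF S} (h : Lev S l T) : BF T := by
  rw [h.expand]
  exact BF.sum _ fun i _ => BF.sum _ fun j _ => BF.TC (h.fn i j) i j

section Ambient

variable {E : Type} [CStarAlgebra E] (M : Amb S E)

/-- the function associated with an element -/
def Amb.toC (x : E) : FF S := fun p => M.ev p x

lemma toC_apply (x : E) (p : XX S) : M.toC x p = M.ev p x := rfl

lemma toC_of {T : FF S} (h : BF T) : M.toC (M.of T) = T := by
  obtain ⟨C, hC⟩ := h
  funext p
  exact M.ev_of T C hC p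

lemma toC_inj {x y : E} (h : M.toC x = M.toC y) : x = y :=
  M.inj x y fun p => congrFun h p

lemma toC_mul (x y : E) : M.toC (x * y) = M.toC x * M.toC y := funext fun p => map_mul (M.ev p) x y

lemma toC_add (x y : E) : M.toC (x + y) = M.toC x + M.toC y := funext fun p => map_add (M.ev p) x y

lemma toC_sub (x y : E) : M.toC (x - y) = M.toC x - M.toC y := funext fun p => map_sub (M.ev p) x y

lemma toC_star (x : E) : M.toC (star x) = star (M.toC x) := funext fun p => map_star (M.ev p) x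

lemma toC_smul (c : ℂ) (x : E) : M.toC (c • x) = c • M.toC x := funext fun p => map_smul (M.ev p) c x

lemma toC_one : M.toC 1 = 1 := funext fun p => map_one (M.ev p)

lemma toC_zero : M.toC 0 = 0 := funext fun p => map_zero (M.ev p)

lemma toC_sum {ι : Type*} (s : Finset ι) (f : ι → E) :
    M.toC (∑ i ∈ s, f i) = ∑ i ∈ s, M.toC (f i) := by
  funext p
  rw [Finset.sum_apply]
  exact map_sum (M.ev p) f s

lemma ev_norm_le (x : E) (p : XX S) : ‖M.ev p x‖ ≤ ‖x‖ :=
  NonUnitalStarAlgHom.norm_apply_le (M.ev p) x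

lemma norm_toC_sub_le (x y : E) (p : XX S) : ‖M.toC x p - M.toC y p‖ ≤ ‖x - y‖ := by
  have := ev_norm_le M (x - y) p
  rw [map_sub] at this
  exact this

lemma of_mul {U T : FF S} (hU : BF U) (hT : BF T) : M.of (U * T) = M.of U * M.of T := by
  apply toC_inj M
  rw [toC_mul, toC_of M (hU.mul hT), toC_of M hU, toC_of M hT]

lemma of_add {U T : FF S} (hU : BF U) (hT : BF T) : M.of (U + T) = M.of U + M.of T := by
  apply toC_inj M
  rw [toC_add, toC_of M (hU.add hT), toC_of M hU, toC_of M hT]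

lemma of_one : M.of 1 = 1 := by
  apply toC_inj M
  rw [toC_one, toC_of M BF.one]

lemma of_zero : M.of 0 = 0 := by
  apply toC_inj M
  rw [toC_zero, toC_of M BF.zero]

lemma of_sum {ι : Type*} (s : Finset ι) {T : ι → FF S} (h : ∀ i ∈ s, BF (T i)) :
    M.of (∑ i ∈ s, T i) = ∑ i ∈ s, M.of (T i) := by
  apply toC_inj M
  rw [toC_sum, toC_of M (BF.sum s h)]
  exact Finset.sum_congr rfl fun i hi => (toC_of M (h i hi)).symm

lemma BF.star' {T : FF S} (h : BF T) : BF (star T) := by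
  obtain ⟨C, hC⟩ := h
  exact ⟨C, fun p => (norm_star (T p)).trans_le (hC p)⟩

lemma of_star {T : FF S} (h : BF T) : M.of (star T) = star (M.of T) := by
  apply toC_inj M
  rw [toC_star, toC_of M h.star', toC_of M h]

lemma norm_of_le {T : FF S} {C : ℝ} (hC : 0 ≤ C) (h : ∀ p, ‖T p‖ ≤ C) : ‖M.of T‖ ≤ C := by
  refine M.norm_le _ C hC fun p => ?_
  rw [M.ev_of T C h p]
  exact h p

/-- the elements of finite level -/
def L0 : StarSubalgebra ℂ E where
  carrier := {x | ∃ l, Lev S l (M.toC x)}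
  mul_mem' := by
    rintro x y ⟨l, hl⟩ ⟨l', hl'⟩
    refine ⟨max l l', ?_⟩
    rw [toC_mul]
    exact (hl.mono (le_max_left _ _)).mul (hl'.mono (le_max_right _ _))
  add_mem' := by
    rintro x y ⟨l, hl⟩ ⟨l', hl'⟩
    refine ⟨max l l', ?_⟩
    rw [toC_add]
    exact (hl.mono (le_max_left _ _)).add (hl'.mono (le_max_right _ _))
  algebraMap_mem' := by
    intro r
    refine ⟨0, ?_⟩
    rw [Algebra.algebraMap_eq_smul_one, toC_smul, toC_one]
    exact Lev.smul_one 0 r
  star_mem' := by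
    rintro x ⟨l, hl⟩
    refine ⟨l, ?_⟩
    rw [toC_star]
    exact hl.star'

lemma mem_L0 {x : E} : x ∈ L0 M ↔ ∃ l, Lev S l (M.toC x) := Iff.rfl

/-- the algebra -/
def A0 : StarSubalgebra ℂ E := (L0 M).topologicalClosure

lemma A0_closed : IsClosed (A0 M : Set E) := StarSubalgebra.isClosed_topologicalClosure _

lemma mem_A0 {x : E} (hx : x ∈ L0 M) : x ∈ A0 M := StarSubalgebra.le_topologicalClosure _ hx

lemma of_mem {l : ℕ} {T : FF S} (h : Lev S l T) : M.of T ∈ L0 M := by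
  refine ⟨l, ?_⟩
  rw [toC_of M h.bf]
  exact h

/-- the element of the algebra given by a self-similar function -/
def el {l : ℕ} {T : FF S} (h : Lev S l T) : ↥(A0 M) := ⟨M.of T, mem_A0 M (of_mem M h)⟩

lemma el_coe {l : ℕ} {T : FF S} (h : Lev S l T) : ((el M h : ↥(A0 M)) : E) = M.of T := rfl

lemma toC_el {l : ℕ} {T : FF S} (h : Lev S l T) : M.toC (el M h : E) = T := toC_of M h.bf

lemma A0_approx {x : E} (hx : x ∈ A0 M) {ε : ℝ} (hε : 0 < ε) :
    ∃ (l : ℕ) (y : E), Lev S l (M.toC y) ∧ ‖x - y‖ ≤ ε := by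
  have h1 : x ∈ closure ((L0 M : StarSubalgebra ℂ E) : Set E) := hx
  obtain ⟨y, hy, hxy⟩ := Metric.mem_closure_iff.mp h1 ε hε
  obtain ⟨l, hl⟩ := hy
  refine ⟨l, y, hl, ?_⟩
  rw [← dist_eq_norm]
  exact hxy.le

instance : CStarAlgebra ↥(A0 M) := StarSubalgebra.cstarAlgebra (A0 M) (h_closed := A0_closed M)

/-! ### separability -/

/-- the parameter space of the elements of level `l` -/
abbrev Prm (S : Sys) (l : ℕ) : Type := S.I × Fin (nz S l) × Fin (nz S l) → C(PT S, ℂ)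

def prF {l : ℕ} (φ : Prm S l) (i j : Fin (nz S l)) : XX S → ℂ := fun P => φ (P.2, i, j) P.1

lemma prF_FN {l : ℕ} (φ : Prm S l) (i j : Fin (nz S l)) : FN (prF φ i j) :=
  fun g => (φ (g, i, j)).continuous

def prT {l : ℕ} (φ : Prm S l) : FF S :=
  ∑ i : Fin (nz S l), ∑ j : Fin (nz S l), TC l (prF φ i j) i j

lemma prT_bf {l : ℕ} (φ : Prm S l) : BF (prT φ) :=
  BF.sum _ fun i _ => BF.sum _ fun j _ => BF.TC (prF_FN φ i j) _ _

lemma prT_sub {l : ℕ} (φ ψ : Prm S l) (P : XX S) :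
    ‖prT φ P - prT ψ P‖ ≤ (nz S l * nz S l : ℝ) * ‖φ - ψ‖ := by
  have e : prT φ P - prT ψ P =
      ∑ i : Fin (nz S l), ∑ j : Fin (nz S l), TC l (prF (φ - ψ) i j) i j P := by
    unfold prT
    rw [Finset.sum_apply, Finset.sum_apply, ← Finset.sum_sub_distrib]
    refine Finset.sum_congr rfl fun i _ => ?_
    rw [Finset.sum_apply, Finset.sum_apply, ← Finset.sum_sub_distrib]
    refine Finset.sum_congr rfl fun j _ => ?_
    have h1 : TC l (prF φ i j) i j =
        TC l (prF (φ - ψ) i j) i j + TC l (prF ψ i j) i j := by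
      rw [TC_add (prF_FN _ i j) (prF_FN _ i j)]
      congr 1
      funext P
      unfold prF
      rw [Pi.sub_apply, ContinuousMap.sub_apply]
      ring
    rw [h1, Pi.add_apply, add_sub_cancel_right]
  rw [e]
  have h2 : ∀ i j : Fin (nz S l), ‖TC l (prF (φ - ψ) i j) i j P‖ ≤ ‖φ - ψ‖ := by
    intro i j
    refine norm_TC_le (prF_FN _ i j) (norm_nonneg _) (fun Q => ?_) _ _ P
    exact (ContinuousMap.norm_coe_le_norm ((φ - ψ) (Q.2, i, j)) Q.1).trans
      (norm_le_pi_norm (φ - ψ) (Q.2, i, j))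
  calc ‖∑ i : Fin (nz S l), ∑ j : Fin (nz S l), TC l (prF (φ - ψ) i j) i j P‖
      ≤ ∑ i : Fin (nz S l), ∑ j : Fin (nz S l), ‖φ - ψ‖ :=
        (norm_sum_le _ _).trans (Finset.sum_le_sum fun i _ =>
          (norm_sum_le _ _).trans (Finset.sum_le_sum fun j _ => h2 i j))
    _ = _ := by
      simp only [Finset.sum_const, Finset.card_univ, Fintype.card_fin, nsmul_eq_mul]
      ring

lemma prT_lip {l : ℕ} : Continuous fun φ : Prm S l => M.of (prT φ) := by
  refine continuous_iff_continuousAt.mpr fun ψ => ?_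
  rw [ContinuousAt, tendsto_iff_norm_sub_tendsto_zero]
  have h1 : ∀ φ : Prm S l, ‖M.of (prT φ) - M.of (prT ψ)‖ ≤ (nz S l * nz S l : ℝ) * ‖φ - ψ‖ := by
    intro φ
    refine M.norm_le _ _ (by positivity) fun P => ?_
    rw [map_sub]
    obtain ⟨C, hC⟩ := prT_bf φ
    obtain ⟨C', hC'⟩ := prT_bf ψ
    rw [M.ev_of _ C hC, M.ev_of _ C' hC']
    exact prT_sub φ ψ P
  refine squeeze_zero (fun _ => norm_nonneg _) h1 ?_
  have h2 : Tendsto (fun φ : Prm S l => ‖φ - ψ‖) (𝓝 ψ) (𝓝 0) := by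
    have := tendsto_iff_norm_sub_tendsto_zero.mp (tendsto_id (α := Prm S l) (x := 𝓝 ψ))
    simpa using this
  simpa using h2.const_mul (nz S l * nz S l : ℝ)

lemma lev_mem_range {l : ℕ} {x : E} (h : Lev S l (M.toC x)) :
    x ∈ Set.range fun φ : Prm S l => M.of (prT φ) := by
  refine ⟨fun t => ⟨fun p => ent (M.toC x (p, t.1)) t.2.1 t.2.2, h.fn _ _ _⟩, ?_⟩
  apply toC_inj M
  simp only
  rw [toC_of M (prT_bf _)]
  conv_rhs => rw [h.expand]
  unfold prT
  rw [Finset.sum_range]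
  refine Finset.sum_congr rfl fun i _ => ?_
  rw [Finset.sum_range]
  rfl

lemma A0_separable : TopologicalSpace.IsSeparable (A0 M : Set E) := by
  have hcl : (A0 M : Set E) = closure ((L0 M : StarSubalgebra ℂ E) : Set E) := rfl
  rw [hcl]
  apply TopologicalSpace.IsSeparable.closure
  have h1 : ((L0 M : StarSubalgebra ℂ E) : Set E) ⊆
      ⋃ l : ℕ, Set.range fun φ : Prm S l => M.of (prT φ) := by
    rintro x ⟨l, hl⟩
    exact Set.mem_iUnion.mpr ⟨l, lev_mem_range M hl⟩
  have h2 : TopologicalSpace.IsSeparable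
      (⋃ l : ℕ, Set.range fun φ : Prm S l => M.of (prT φ)) :=
    TopologicalSpace.IsSeparable.iUnion fun l => TopologicalSpace.isSeparable_range (prT_lip M)
  exact h2.mono h1

lemma separable : TopologicalSpace.SeparableSpace ↥(A0 M) := (A0_separable M).separableSpace

/-! ### simplicity -/

/-- compressions -/
lemma TC_mid {L : ℕ} {T : FF S} (hT : Lev S L T) {φ ψ : XX S → ℂ} (hφ : FN φ) (hψ : FN ψ)
    {a b : ℕ} (ha : a < nz S L) (hb : b < nz S L) (c d : ℕ) :
    TC L φ c a * T * TC L ψ b d = TC L (fun P => φ P * ent (T P) a b * ψ P) c d := by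
  conv_lhs => rw [hT.expand]
  rw [Finset.mul_sum, Finset.sum_mul, Finset.sum_eq_single a]
  · rw [Finset.mul_sum, Finset.sum_mul, Finset.sum_eq_single b]
    · rw [TC_mul hφ (hT.fn a b) _ _ _ ha, TC_mul (hφ.mul (hT.fn a b)) hψ _ _ _ hb]
    · intro j hj hjb
      rw [TC_mul hφ (hT.fn a j) _ _ _ ha,
        TC_mul_ne (hφ.mul (hT.fn a j)) hψ _ _ _ _ (Finset.mem_range.mp hj) hjb]
    · intro h; exact absurd (Finset.mem_range.mpr hb) h
  · intro i _ hia
    rw [Finset.mul_sum, Finset.sum_mul]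
    refine Finset.sum_eq_zero fun j _ => ?_
    rw [TC_mul_ne hφ (hT.fn i j) _ _ _ _ ha (fun h => hia h.symm), zero_mul]
  · intro h; exact absurd (Finset.mem_range.mpr ha) h

/-- the function `1` -/
def onef : XX S → ℂ := fun _ => 1

lemma onef_FN : FN (onef (S := S)) := FN.const 1

open Classical in
/-- the indicator function of a component -/
def indf (g : S.I) : XX S → ℂ := fun P => if P.2 = g then 1 else 0

lemma indf_FN (g : S.I) : FN (indf g) := by
  intro g'
  have h : (fun p : PT S => indf g (p, g')) =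
      fun _ => indf g (Classical.arbitrary (PT S), g') := by
    funext p
    rfl
  rw [h]
  exact continuous_const

lemma par_const {m a b : ℕ} (ha : nz S m ≤ a ∧ a < nz S (m + 1))
    (hb : nz S m ≤ b ∧ b < nz S (m + 1)) {φ : XX S → ℂ} (hφ : ∀ k P, φ (flip k P) = φ P) :
    Par2 a b φ := by
  intro k P
  have h0 := nz_pos S m
  have h1 : sk S k a = sk S k b := by
    unfold sk
    simp only [blk_lv (show a ≠ 0 by omega), blk_lv (show b ≠ 0 by omega),
      lv_unique S ha.1 ha.2, lv_unique S hb.1 hb.2]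
  rw [hφ, h1, sk_mul_self, one_mul]

lemma psi_par (a b c d : ℕ) : Par2 a b (fun P : XX S => psi a c P * psi b d P) := by
  intro k P
  simp only [psi_flip]
  ring

/-- if a matrix unit of a block is in an ideal then so is one -/
lemma one_mem {L b : ℕ} (hb : b < nz S L) (I : TwoSidedIdeal ↥(A0 M))
    (hpar : Lev S L (TC L (onef (S := S)) b b)) (h : el M hpar ∈ I) :
    (1 : ↥(A0 M)) ∈ I := by
  have hF : ∀ a c b c', FN (fun P : XX S => psi a c P * psi b c' P) :=
    fun a c b c' => (psi_FN a c).mul (psi_FN b c')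
  have hterm : ∀ a (ha : a < nz S L) (c c' : ℕ), ∃ x ∈ I, M.toC (x : E) =
      TC L (fun P => (psi a c P * psi a c P) * (psi b c' P * psi b c' P)) a a := by
    intro a ha c c'
    have l1 := TC_lev (hF a c b c') ha hb (psi_par a b c c')
    have l2 := TC_lev (hF b c' a c) hb ha (psi_par b a c' c)
    refine ⟨el M l1 * el M hpar * el M l2, I.mul_mem_right _ _ (I.mul_mem_left _ _ h), ?_⟩
    show M.toC ((el M l1 : E) * (el M hpar : E) * (el M l2 : E)) = _
    rw [toC_mul, toC_mul, toC_el, toC_el, toC_el, TC_mul (hF a c b c') onef_FN _ _ _ hb,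
      TC_mul ((hF a c b c').mul onef_FN) (hF b c' a c) _ _ _ hb]
    congr 1
    funext P
    unfold onef
    ring
  choose! g hgI hgC using hterm
  have hone : (1 : ↥(A0 M)) = ∑ a ∈ (Finset.range (nz S L)).attach,
      ∑ c ∈ Finset.range (kk S a), ∑ c' ∈ Finset.range (kk S b),
        g a c c' := by
    apply Subtype.ext
    apply toC_inj M
    have h1 : M.toC ((1 : ↥(A0 M)) : E) = 1 := toC_one M
    rw [h1, ← sum_TC_one L, AddSubmonoidClass.coe_finsetSum, toC_sum, ← Finset.sum_attach]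
    refine Finset.sum_congr rfl fun a _ => ?_
    have ha := Finset.mem_range.mp a.2
    rw [AddSubmonoidClass.coe_finsetSum, toC_sum]
    have h2 : ∀ c ∈ Finset.range (kk S a), M.toC ((∑ c' ∈ Finset.range (kk S b),
        g a c c' : ↥(A0 M)) : E) = TC L (fun P => psi a c P * psi a c P) a a := by
      intro c _
      rw [AddSubmonoidClass.coe_finsetSum, toC_sum]
      rw [Finset.sum_congr rfl fun c' _ => hgC a ha c c']
      rw [TC_sum _ _ fun c' _ => (hF a c a c).mul (hF b c' b c')]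
      congr 1
      funext P
      rw [← Finset.mul_sum, psi_sum, mul_one]
    rw [Finset.sum_congr rfl h2, TC_sum _ _ fun c _ => hF a c a c]
    congr 1
    funext P
    rw [psi_sum]
  rw [hone]
  exact sum_mem fun a _ => sum_mem fun c _ => sum_mem fun c' _ =>
    hgI _ (Finset.mem_range.mp a.2) _ _

/-- the row element -/
def rowE (m i : ℕ) (cc : S.I → ℕ) : FF S :=
  ∑ g : S.I, TC (m + 1) (indf g) (nz S m) (cc g * nz S m + i)

def colE (m j : ℕ) (cc : S.I → ℕ) : FF S :=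
  ∑ g : S.I, TC (m + 1) (indf g) (cc g * nz S m + j) (nz S m)

lemma blkm {m i c : ℕ} (hi : i < nz S m) (hc1 : 1 ≤ c) (hc : c < S.N) :
    nz S m ≤ c * nz S m + i ∧ c * nz S m + i < nz S (m + 1) := by
  refine ⟨?_, blk_lt S hc hi⟩
  have : 1 * nz S m ≤ c * nz S m := Nat.mul_le_mul_right _ hc1
  omega

lemma blk0 (m : ℕ) : nz S m ≤ nz S m ∧ nz S m < nz S (m + 1) := ⟨le_rfl, nz_lt_succ S m⟩

lemma rowE_lev {m i : ℕ} (hi : i < nz S m) {cc : S.I → ℕ} (h1 : ∀ g, 1 ≤ cc g)
    (h2 : ∀ g, cc g < S.N) : Lev S (m + 1) (rowE m i cc) :=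
  Lev.sum _ fun g _ => TC_lev (indf_FN g) (blk0 m).2 (blkm hi (h1 g) (h2 g)).2
    (par_const (blk0 m) (blkm hi (h1 g) (h2 g)) fun _ _ => rfl)

lemma colE_lev {m j : ℕ} (hj : j < nz S m) {cc : S.I → ℕ} (h1 : ∀ g, 1 ≤ cc g)
    (h2 : ∀ g, cc g < S.N) : Lev S (m + 1) (colE m j cc) :=
  Lev.sum _ fun g _ => TC_lev (indf_FN g) (blkm hj (h1 g) (h2 g)).2 (blk0 m).2
    (par_const (blkm hj (h1 g) (h2 g)) (blk0 m) fun _ _ => rfl)

lemma norm_indf_le (g : S.I) (P : XX S) : ‖indf g P‖ ≤ 1 := by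
  unfold indf
  split_ifs <;> simp

lemma norm_rowE_le (m i : ℕ) (cc : S.I → ℕ) (P : XX S) :
    ‖rowE m i cc P‖ ≤ Fintype.card S.I := by
  unfold rowE
  rw [Finset.sum_apply]
  refine (norm_sum_le _ _).trans ?_
  refine (Finset.sum_le_sum fun g _ =>
    norm_TC_le (indf_FN g) zero_le_one (norm_indf_le g) _ _ P).trans ?_
  simp

lemma norm_colE_le (m i : ℕ) (cc : S.I → ℕ) (P : XX S) :
    ‖colE m i cc P‖ ≤ Fintype.card S.I := by
  unfold colE
  rw [Finset.sum_apply]
  refine (norm_sum_le _ _).trans ?_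
  refine (Finset.sum_le_sum fun g _ =>
    norm_TC_le (indf_FN g) zero_le_one (norm_indf_le g) _ _ P).trans ?_
  simp

/-- compression of an element of the algebra to a matrix unit -/
lemma corner {l m i j : ℕ} {T : FF S} (hT : Lev S l T) (hlm : l ≤ m) (hi : i < nz S m)
    (hj : j < nz S m) {cc : S.I → ℕ} (h1 : ∀ g, 1 ≤ cc g) (h2 : ∀ g, cc g < S.N) {g0 : S.I}
    (h3 : ∀ g, S.s (cc g) g = g0) :
    rowE m i cc * T * colE m j cc =
      ent (T (q S m, g0)) i j • TC (m + 1) onef (nz S m) (nz S m) := by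
  have hT' := hT.mono (show l ≤ m + 1 by omega)
  unfold rowE colE
  rw [Finset.sum_mul, Finset.sum_mul]
  have e1 : ∀ g ∈ (Finset.univ : Finset S.I),
      TC (m + 1) (indf g) (nz S m) (cc g * nz S m + i) * T *
        ∑ g' : S.I, TC (m + 1) (indf g') (cc g' * nz S m + j) (nz S m) =
      TC (m + 1) (fun P => ent (T (q S m, g0)) i j * indf g P) (nz S m) (nz S m) := by
    intro g _
    rw [Finset.mul_sum, Finset.sum_eq_single g]
    · rw [TC_mid hT' (indf_FN g) (indf_FN g) (blkm hi (h1 g) (h2 g)).2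
        (blkm hj (h1 g) (h2 g)).2]
      congr 1
      funext P
      unfold indf
      by_cases hP : P.2 = g
      · rw [if_pos hP, one_mul, mul_one, mul_one, hT.entry_block hlm (h2 g) P hi hj,
          tr_pos m (by have := h1 g; omega), hP, h3 g]
      · rw [if_neg hP]; simp
    · intro g' _ hne
      rw [TC_mid hT' (indf_FN g) (indf_FN g') (blkm hi (h1 g) (h2 g)).2
        (blkm hj (h1 g') (h2 g')).2]
      rw [← TC_zero (S := S) (m + 1) (nz S m) (nz S m)]
      congr 1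
      funext P
      unfold indf
      by_cases hP : P.2 = g
      · rw [if_neg (show ¬ P.2 = g' from fun h => hne (h.symm.trans hP)), mul_zero]
      · rw [if_neg hP]; simp
    · intro h; exact absurd (Finset.mem_univ _) h
  rw [Finset.sum_congr rfl e1, TC_sum _ _ fun g _ => (FN.const _).mul (indf_FN g), TC_smul onef_FN]
  congr 1
  funext P
  rw [← Finset.mul_sum]
  congr 1
  unfold indf onef
  rw [Finset.sum_eq_single P.2]
  · rw [if_pos rfl]
  · intro b _ hb
    rw [if_neg (fun h => hb h.symm)]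
  · intro h; exact absurd (Finset.mem_univ _) h

/-- a nonzero ideal is everything -/
theorem ideal_eq_top (I : TwoSidedIdeal ↥(A0 M)) {x : ↥(A0 M)} (hx : x ∈ I) (hx0 : x ≠ 0) :
    (1 : ↥(A0 M)) ∈ I := by
  -- a nonzero entry
  have h1 : ∃ p i j, ent (M.toC (x : E) p) i j ≠ 0 := by
    by_contra hcon
    push Not at hcon
    apply hx0
    apply Subtype.ext
    apply toC_inj M
    funext p
    refine ent_ext fun i j => ?_
    have h2 : M.toC ((0 : ↥(A0 M)) : E) = 0 := toC_zero M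
    rw [h2, hcon p i j]
    rfl
  obtain ⟨⟨p, g0⟩, i, j, hp⟩ := h1
  set K : ℝ := ((Fintype.card S.I : ℕ) : ℝ) with hK
  have hK1 : 1 ≤ K := by
    rw [hK]
    exact_mod_cast Fintype.card_pos
  set δ := ‖ent (M.toC (x : E) (p, g0)) i j‖ / (3 * K ^ 2) with hδd
  have hδ : 0 < δ := by
    have : 0 < ‖ent (M.toC (x : E) (p, g0)) i j‖ := norm_pos_iff.mpr hp
    positivity
  obtain ⟨l, y, hl, hxy⟩ := A0_approx M x.2 hδ
  have hK2 : 1 ≤ K ^ 2 := one_le_pow₀ hK1
  have h2 : δ * K ^ 2 < ‖ent (M.toC y (p, g0)) i j‖ := by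
    have h3 : ent (M.toC (x : E) (p, g0)) i j =
        ent (M.toC (x : E) (p, g0) - M.toC y (p, g0)) i j + ent (M.toC y (p, g0)) i j := by
      rw [ent_sub, sub_add_cancel]
    have h4 : ‖ent (M.toC (x : E) (p, g0) - M.toC y (p, g0)) i j‖ ≤ δ :=
      (norm_ent_le _ i j).trans ((norm_toC_sub_le M _ _ _).trans hxy)
    have h5 : ‖ent (M.toC (x : E) (p, g0)) i j‖ ≤ δ + ‖ent (M.toC y (p, g0)) i j‖ := by
      rw [h3]
      exact (norm_add_le _ _).trans (add_le_add h4 le_rfl)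
    have h6 : ‖ent (M.toC (x : E) (p, g0)) i j‖ = 3 * (δ * K ^ 2) := by
      rw [hδd]; field_simp
    nlinarith
  -- choose a base point
  have hU : IsOpen {p' : PT S | δ * K ^ 2 < ‖ent (M.toC y (p', g0)) i j‖} :=
    isOpen_lt continuous_const (hl.fn i j g0).norm
  obtain ⟨m, hm, hqm⟩ := q_spec hU ⟨p, h2⟩ (max l (i + j))
  have hlm : l ≤ m := (le_max_left _ _).trans hm
  have hijm : i + j ≤ m := (le_max_right _ _).trans hm
  have hi : i < nz S m := (show i ≤ m by omega).trans_lt (lt_nz S m)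
  have hj : j < nz S m := (show j ≤ m by omega).trans_lt (lt_nz S m)
  set h0 := ent (M.toC y (q S m, g0)) i j with hh0
  have hh : δ * K ^ 2 < ‖h0‖ := hqm
  have hh0' : h0 ≠ 0 := by
    intro h
    rw [h, norm_zero] at hh
    nlinarith
  -- elements of the algebra
  have hcov : ∀ g, ∃ c, 1 ≤ c ∧ c < S.N ∧ S.s c g = g0 := fun g => S.cov g g0
  choose cc hc1 hc2 hc3 using hcov
  have lr := rowE_lev hi hc1 hc2
  have lc := colE_lev hj hc1 hc2
  have le : Lev S (m + 1) (TC (m + 1) (onef (S := S)) (nz S m) (nz S m)) :=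
    TC_lev onef_FN (blk0 m).2 (blk0 m).2 (par_const (blk0 m) (blk0 m) fun _ _ => rfl)
  set c : ↥(A0 M) := el M lr with hc
  set d : ↥(A0 M) := el M lc with hd
  set e : ↥(A0 M) := el M le with he
  set y' : ↥(A0 M) := ⟨y, mem_A0 M ⟨l, hl⟩⟩ with hy'
  have k1 : c * y' * d = h0 • e := by
    apply Subtype.ext
    apply toC_inj M
    show M.toC ((c : E) * y * (d : E)) = M.toC (h0 • (e : E))
    rw [toC_mul, toC_mul, toC_smul, hc, hd, he, toC_el, toC_el, toC_el]
    exact corner hl hlm hi hj hc1 hc2 hc3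
  have nc : ‖c‖ ≤ K := norm_of_le M (by positivity) (norm_rowE_le m i cc)
  have nd : ‖d‖ ≤ K := norm_of_le M (by positivity) (norm_colE_le m j cc)
  have ne : ‖e‖ ≤ 1 := norm_of_le M zero_le_one fun p =>
    norm_TC_le onef_FN zero_le_one (fun _ => by unfold onef; simp) _ _ p
  have k2 : ‖c * x * d - h0 • e‖ ≤ δ * K ^ 2 := by
    rw [← k1, ← sub_mul, ← mul_sub]
    have hxy'' : ‖x - y'‖ ≤ δ := hxy
    calc ‖c * (x - y') * d‖ ≤ ‖c * (x - y')‖ * ‖d‖ := norm_mul_le _ _
      _ ≤ (‖c‖ * ‖x - y'‖) * ‖d‖ := by gcongr; exact norm_mul_le _ _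
      _ ≤ (K * δ) * K := by gcongr
      _ = δ * K ^ 2 := by ring
  set z : ↥(A0 M) := (h0⁻¹ • (1 : ↥(A0 M))) * (c * x * d) with hz
  have hzI : z ∈ I := I.mul_mem_left _ _ (I.mul_mem_right _ _ (I.mul_mem_left _ _ hx))
  have k3 : ‖e - z‖ < 1 := by
    have e1 : e - z = -(h0⁻¹ • (c * x * d - h0 • e)) := by
      rw [hz, smul_mul_assoc, one_mul, smul_sub, smul_smul, inv_mul_cancel₀ hh0', one_smul, neg_sub]
    rw [e1, norm_neg, norm_smul, norm_inv]
    have hpos : 0 < ‖h0‖ := norm_pos_iff.mpr hh0'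
    calc ‖h0‖⁻¹ * ‖c * x * d - h0 • e‖ ≤ ‖h0‖⁻¹ * (δ * K ^ 2) := by gcongr
      _ < ‖h0‖⁻¹ * ‖h0‖ := by gcongr
      _ = 1 := inv_mul_cancel₀ hpos.ne'
  have hee : e * e = e := by
    apply Subtype.ext
    apply toC_inj M
    show M.toC ((e : E) * (e : E)) = M.toC (e : E)
    rw [toC_mul, he, toC_el, TC_mul onef_FN onef_FN _ _ _ (blk0 m).2]
    congr 1
    funext p
    unfold onef
    ring
  exact one_mem M (blk0 m).2 I le (proj_mem I hee ne hzI k3)

theorem nontriv : Nontrivial ↥(A0 M) := by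
  refine ⟨0, 1, fun h => ?_⟩
  have h1 : M.toC ((0 : ↥(A0 M)) : E) = M.toC ((1 : ↥(A0 M)) : E) := by rw [h]
  have h2 : M.toC ((0 : ↥(A0 M)) : E) = 0 := toC_zero M
  have h3 : M.toC ((1 : ↥(A0 M)) : E) = 1 := toC_one M
  rw [h2, h3] at h1
  obtain ⟨p⟩ : Nonempty (XX S) := inferInstance
  have h4 : ent ((0 : FF S) p) 0 0 = ent ((1 : FF S) p) 0 0 := by rw [h1]
  rw [Pi.zero_apply, Pi.one_apply, ent_zero, ent_one, if_pos rfl] at h4
  exact zero_ne_one h4

theorem simple : IsSimpleRing ↥(A0 M) := by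
  have hnt : Nontrivial ↥(A0 M) := nontriv M
  apply IsSimpleRing.of_eq_bot_or_eq_top
  intro I
  by_cases hI : ∀ x ∈ I, x = 0
  · left
    exact le_bot_iff.mp fun x hx => by
      rw [hI x hx]
      exact TwoSidedIdeal.zero_mem _
  · right
    push Not at hI
    obtain ⟨x, hx, hx0⟩ := hI
    have h1 := ideal_eq_top M I hx hx0
    refine top_le_iff.mp fun y _ => ?_
    have := I.mul_mem_left y 1 h1
    rwa [mul_one] at this

end Ambient

end

end Pool.Agent.H252.VR
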