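import Pool.Graph.R_seed8.Helper133.BUProd
import Pool.Graph.R_seed8.Y269.GP.Op

/-!
# Base spaces, evaluation points and block sizes

This development adapts the technique of the library modules `Pool.Graph.R_seed8.Y269.GP` and
`Pool.Graph.R_seed8.Y269.RK` (self-similar operator valued functions on a product of spheres) to
algebras with finitely many components.
-/

set_option autoImplicit false

namespace Pool.Agent.H252.VR

open scoped ENNReal
open Pool.Agent.Helper133.BT Pool.Agent.Helper133.BU Filter Topology Pool.Agent.Y269.GP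

noncomputable section

/-- The combinatorial data of the construction: a finite set `I` of components, the number `N` of
blocks and the components `s c i` of the blocks `c = 1, ..., N - 1`. -/
structure Sys where
  I : Type
  fin : Fintype I
  ne : Nonempty I
  N : ℕ
  two_le : 2 ≤ N
  s : ℕ → I → I
  bal : ∀ (f : I → ℂ) (i j : I),
    ∑ c ∈ Finset.Ico 1 N, f (s c i) = ∑ c ∈ Finset.Ico 1 N, f (s c j)
  cov : ∀ i j : I, ∃ c, 1 ≤ c ∧ c < N ∧ s c i = j

variable (S : Sys)

instance : Fintype S.I := S.fin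

instance : Nonempty S.I := S.ne

/-- the sizes of the blocks -/
def nz (m : ℕ) : ℕ := S.N ^ m

lemma N_pos : 0 < S.N := lt_of_lt_of_le (by norm_num) S.two_le

lemma nz_zero : nz S 0 = 1 := pow_zero _

lemma nz_succ (m : ℕ) : nz S (m + 1) = S.N * nz S m := pow_succ' _ _

lemma nz_pos (m : ℕ) : 0 < nz S m := Nat.pow_pos (N_pos S)

lemma nz_mono {l m : ℕ} (h : l ≤ m) : nz S l ≤ nz S m := Nat.pow_le_pow_right (N_pos S) h

lemma nz_lt_succ (m : ℕ) : nz S m < nz S (m + 1) := by
  rw [nz_succ]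
  have := nz_pos S m
  have := S.two_le
  nlinarith

lemma lt_nz (m : ℕ) : m < nz S m := Nat.lt_pow_self (by have := S.two_le; omega)

lemma nz_dvd {l m : ℕ} (h : l ≤ m) : nz S l ∣ nz S m := pow_dvd_pow _ h

/-- the level of a number -/
def lv (c : ℕ) : ℕ := Nat.log S.N c

lemma blk_lt {m c x : ℕ} (hc : c < S.N) (hx : x < nz S m) : c * nz S m + x < nz S (m + 1) := by
  rw [nz_succ]
  calc c * nz S m + x < c * nz S m + nz S m := by omega
    _ = (c + 1) * nz S m := by ring
    _ ≤ S.N * nz S m := Nat.mul_le_mul_right _ hc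

lemma lv_le {c : ℕ} (hc : c ≠ 0) : nz S (lv S c) ≤ c := Nat.pow_log_le_self _ hc

lemma lt_lv (c : ℕ) : c < nz S (lv S c + 1) :=
  Nat.lt_pow_succ_log_self (by have := S.two_le; omega) c

lemma lv_unique {c m : ℕ} (h1 : nz S m ≤ c) (h2 : c < nz S (m + 1)) : lv S c = m := by
  unfold lv
  exact Nat.log_eq_of_pow_le_of_lt_pow h1 h2

lemma lv_block {m c x : ℕ} (hc0 : c ≠ 0) (hc : c < S.N) (hx : x < nz S m) :
    lv S (c * nz S m + x) = m := by
  refine lv_unique S ?_ (blk_lt S hc hx)
  have : nz S m ≤ c * nz S m := Nat.le_mul_of_pos_left _ (Nat.pos_of_ne_zero hc0)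
  omega

lemma div_block {m x : ℕ} (c : ℕ) (hx : x < nz S m) : (c * nz S m + x) / nz S m = c := by
  rw [mul_comm, Nat.mul_add_div (nz_pos S m), Nat.div_eq_of_lt hx, add_zero]

lemma mod_block {m x : ℕ} (c : ℕ) (hx : x < nz S m) : (c * nz S m + x) % nz S m = x := by
  rw [mul_comm, Nat.mul_add_mod, Nat.mod_eq_of_lt hx]

lemma mod_lt_self {i : ℕ} (hi : i ≠ 0) : i % nz S (lv S i) < i :=
  (Nat.mod_lt _ (nz_pos S _)).trans_le (lv_le S hi)

lemma div_lt_N (i : ℕ) : i / nz S (lv S i) < S.N := by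
  rw [Nat.div_lt_iff_lt_mul (nz_pos S _), ← nz_succ]
  exact lt_lv S i

lemma div_ne_zero {i : ℕ} (hi : i ≠ 0) : i / nz S (lv S i) ≠ 0 :=
  (Nat.div_pos (lv_le S hi) (nz_pos S _)).ne'

/-! ### the product of the spheres -/

/-- the dimensions of the spheres -/
def nn (k : ℕ) : ℕ := 2 * nz S (k + 1)

lemma nn_pos (i : ℕ) : 1 ≤ nn S i := by
  unfold nn
  have := nz_pos S (i + 1)
  omega

/-- the product of the spheres -/
def PT : Type := ↥(PP (nn S))

instance : TopologicalSpace (PT S) := inferInstanceAs (TopologicalSpace ↥(PP (nn S)))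

instance : CompactSpace (PT S) := isCompact_iff_compactSpace.mp (PP_compact (nn S))

instance : SecondCountableTopology (PT S) :=
  inferInstanceAs (SecondCountableTopology ↥(PP (nn S)))

instance : T2Space (PT S) := inferInstanceAs (T2Space ↥(PP (nn S)))

variable {S}

/-- the coordinates of a point -/
def PT.val (p : PT S) : Om (nn S) := Subtype.val p

lemma PT.prop (p : PT S) : p.val ∈ PP (nn S) := Subtype.property p

lemma PT.continuous_val : Continuous (PT.val (S := S)) := continuous_subtype_val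

def PT.mk (v : Om (nn S)) (h : v ∈ PP (nn S)) : PT S := ⟨v, h⟩

lemma PT.val_mk (v : Om (nn S)) (h : v ∈ PP (nn S)) : (PT.mk v h).val = v := rfl

instance : Nonempty (PT S) := ⟨PT.mk (v0 (nn S)) (v0_mem (nn S))⟩

variable (S)

/-- points with a component -/
abbrev XX : Type := PT S × S.I

variable {S}

/-- the antipodal map in one factor -/
def flp0 (k : ℕ) (p : PT S) : PT S := PT.mk (flp (nn S) k p.val) (flp_mem (nn S) k p.prop)

lemma flp0_val (k : ℕ) (p : PT S) : (flp0 k p).val = flp (nn S) k p.val := rfl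

def flip (k : ℕ) (P : XX S) : XX S := (flp0 k P.1, P.2)

lemma flp0_flp0 (k : ℕ) (p : PT S) : flp0 k (flp0 k p) = p := by
  apply Subtype.ext
  show flp (nn S) k (flp (nn S) k p.val) = p.val
  unfold flp
  simp

lemma flip_flip (k : ℕ) (P : XX S) : flip k (flip k P) = P := by
  unfold flip
  simp only [flp0_flp0]

variable (S)

/-- the base points -/
def q (m : ℕ) : PT S := TopologicalSpace.denseSeq (PT S) (Nat.unpair m).2

variable {S}

lemma q_spec {U : Set (PT S)} (hU : IsOpen U) (hne : U.Nonempty) (l : ℕ) :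
    ∃ m, l ≤ m ∧ q S m ∈ U := by
  obtain ⟨p, hp, j, rfl⟩ :=
    (TopologicalSpace.denseRange_denseSeq (PT S)).exists_mem_open hU hne |>.elim
      (fun j hj => (⟨_, hj, j, rfl⟩ :
        ∃ p, p ∈ U ∧ ∃ j, TopologicalSpace.denseSeq (PT S) j = p))
  refine ⟨Nat.pair l j, Nat.left_le_pair l j, ?_⟩
  unfold q
  rw [Nat.unpair_pair]
  exact hp

/-- the maps of the blocks -/
def tr (m c : ℕ) (P : XX S) : XX S := if c = 0 then P else (q S m, S.s c P.2)

lemma tr_zero (m : ℕ) (P : XX S) : tr m 0 P = P := if_pos rfl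

lemma tr_pos (m : ℕ) {c : ℕ} (hc : c ≠ 0) (P : XX S) : tr m c P = (q S m, S.s c P.2) := if_neg hc

lemma tr_flip {m c : ℕ} (hc : c ≠ 0) (k : ℕ) (P : XX S) : tr m c (flip k P) = tr m c P := by
  rw [tr_pos m hc, tr_pos m hc]
  rfl

/-- the evaluation points -/
def DD : ℕ → XX S → XX S
  | 0, P => P
  | (i + 1), P => DD ((i + 1) % nz S (lv S (i + 1)))
      (tr (lv S (i + 1)) ((i + 1) / nz S (lv S (i + 1))) P)
termination_by i => i
decreasing_by exact mod_lt_self S (Nat.succ_ne_zero i)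

lemma DD_zero (P : XX S) : DD 0 P = P := by rw [DD]

lemma DD_pos {i : ℕ} (hi : i ≠ 0) (P : XX S) :
    DD i P = DD (i % nz S (lv S i)) (tr (lv S i) (i / nz S (lv S i)) P) := by
  obtain ⟨i, rfl⟩ := Nat.exists_eq_succ_of_ne_zero hi
  rw [DD]

lemma DD_block {m c x : ℕ} (hc : c < S.N) (hx : x < nz S m) (P : XX S) :
    DD (c * nz S m + x) P = DD x (tr m c P) := by
  by_cases hc0 : c = 0
  · subst hc0
    rw [tr_zero, zero_mul, zero_add]
  · have hne : c * nz S m + x ≠ 0 := by
      have := nz_pos S m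
      have : 0 < c * nz S m := Nat.mul_pos (Nat.pos_of_ne_zero hc0) this
      omega
    rw [DD_pos hne, lv_block S hc0 hc hx, div_block S c hx, mod_block S c hx]

/-- away from the first block the evaluation points only depend on the component -/
lemma DD_const {i : ℕ} (hi : i ≠ 0) {P P' : XX S} (h : P.2 = P'.2) : DD i P = DD i P' := by
  rw [DD_pos hi, DD_pos hi, tr_pos _ (div_ne_zero S hi), tr_pos _ (div_ne_zero S hi), h]

/-- the class of functions which occur -/
def FN (φ : XX S → ℂ) : Prop := ∀ g, Continuous fun p => φ (p, g)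

namespace FN

lemma const (c : ℂ) : FN (S := S) fun _ => c := fun _ => continuous_const

lemma add {φ ψ : XX S → ℂ} (h : FN φ) (h' : FN ψ) : FN fun p => φ p + ψ p :=
  fun g => (h g).add (h' g)

lemma mul {φ ψ : XX S → ℂ} (h : FN φ) (h' : FN ψ) : FN fun p => φ p * ψ p :=
  fun g => (h g).mul (h' g)

lemma conj {φ : XX S → ℂ} (h : FN φ) : FN fun p => (starRingEnd ℂ) (φ p) :=
  fun g => Complex.continuous_conj.comp (h g)

lemma sum {ι : Type*} (s : Finset ι) {φ : ι → XX S → ℂ} (h : ∀ i ∈ s, FN (φ i)) :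
    FN fun p => ∑ i ∈ s, φ i p :=
  fun g => continuous_finsetSum s fun i hi => h i hi g

lemma comp_DD {φ : XX S → ℂ} (h : FN φ) (i : ℕ) : FN fun p => φ (DD i p) := by
  intro g
  by_cases hi : i = 0
  · subst hi
    simpa only [DD_zero] using h g
  · obtain ⟨p0⟩ : Nonempty (PT S) := inferInstance
    have e : (fun p : PT S => φ (DD i (p, g))) = fun _ => φ (DD i (p0, g)) :=
      funext fun p => by rw [DD_const hi (P := (p, g)) (P' := (p0, g)) rfl]
    rw [e]
    exact continuous_const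

lemma bdd {φ : XX S → ℂ} (h : FN φ) : ∃ C : ℝ, 0 ≤ C ∧ ∀ p, ‖φ p‖ ≤ C := by
  have h1 : ∀ g : S.I, ∃ C : ℝ, ∀ p : PT S, ‖φ (p, g)‖ ≤ C := by
    intro g
    obtain ⟨C, hC⟩ := (isCompact_range (h g)).isBounded.exists_norm_le
    exact ⟨C, fun p => hC _ ⟨p, rfl⟩⟩
  choose C hC using h1
  refine ⟨∑ g, |C g|, Finset.sum_nonneg fun _ _ => abs_nonneg _, fun P => ?_⟩
  refine (hC P.2 P.1).trans ((le_abs_self _).trans ?_)
  exact Finset.single_le_sum (f := fun g => |C g|) (fun _ _ => abs_nonneg _) (Finset.mem_univ P.2)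

end FN

/-- the sign -/
def sk (S : Sys) (k i : ℕ) : ℂ := if nz S k ≤ i ∧ i < nz S (k + 1) then -1 else 1

lemma sk_mul_self (k i : ℕ) : sk S k i * sk S k i = 1 := by
  unfold sk; split_ifs <;> simp

lemma conj_sk (k i : ℕ) : (starRingEnd ℂ) (sk S k i) = sk S k i := by
  unfold sk; split_ifs <;> simp

lemma norm_sk (k i : ℕ) : ‖sk S k i‖ = 1 := by
  unfold sk; split_ifs <;> simp

end

end Pool.Agent.H252.VR
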