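import Pool.Agent.H252.VR.Uniq

/-!
# Failure of comparison
-/

set_option autoImplicit false

namespace Pool.Agent.H252.VR

open scoped ENNReal NNReal
open Pool.Agent.Helper133.BT Pool.Agent.Helper133.BU Filter Topology
open Pool.Agent.Y269.GP (HH wp Good ee wp_apply norm_wp_le op_ext mulA oneA op_ext' star_wp ee_apply
  inner_ee proj_mem)
open Pool.Agent.H252.VR.Defs

noncomputable section

variable {S : Sys}

/-! ### the Borsuk-Ulam argument -/

lemma sk_eq_sgn {k j : ℕ} (hj : j ≠ 0) :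
    sk S k j = if k = lv S j then -1 else 1 := by
  unfold sk
  simp only [blk_lv hj]

/-- at some point all off-diagonal entries of the first row vanish -/
theorem exists_zero {l : ℕ} {T : FF S} (hT : Lev S l T) (g : S.I) (L : ℕ) :
    ∃ p : PT S, ∀ j, 1 ≤ j → j < nz S L → ent (T (p, g)) 0 j = 0 := by
  classical
  let F : ℕ → ℕ → Om (nn S) → ℝ := fun i r v =>
    if h : v ∈ PP (nn S) then
      (if nz S i ≤ r / 2 ∧ r / 2 < nz S (i + 1) then
        (if r % 2 = 0 then (ent (T (PT.mk v h, g)) 0 (r / 2)).re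
          else (ent (T (PT.mk v h, g)) 0 (r / 2)).im)
      else 0) else 0
  have hF : ∀ i r, ContinuousOn (F i r) (PP (nn S)) := by
    intro i r
    rw [continuousOn_iff_continuous_restrict]
    change Continuous fun p : ↥(PP (nn S)) => F i r (p : Om (nn S))
    by_cases hi : nz S i ≤ r / 2 ∧ r / 2 < nz S (i + 1)
    · by_cases hr : r % 2 = 0
      · have e : (fun p : ↥(PP (nn S)) => F i r (p : Om (nn S))) =
            fun p : ↥(PP (nn S)) => (ent (T ((p : PT S), g)) 0 (r / 2)).re := by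
          funext p
          have hp := p.2
          simp only [F, dif_pos hp, if_pos hi, if_pos hr]
          rfl
        rw [e]
        exact Complex.continuous_re.comp (hT.fn 0 (r / 2) g)
      · have e : (fun p : ↥(PP (nn S)) => F i r (p : Om (nn S))) =
            fun p : ↥(PP (nn S)) => (ent (T ((p : PT S), g)) 0 (r / 2)).im := by
          funext p
          have hp := p.2
          simp only [F, dif_pos hp, if_pos hi, if_neg hr]
          rfl
        rw [e]
        exact Complex.continuous_im.comp (hT.fn 0 (r / 2) g)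
    · have e : (fun p : ↥(PP (nn S)) => F i r (p : Om (nn S))) = fun _ => 0 := by
        funext p
        have hp := p.2
        simp only [F, dif_pos hp, if_neg hi]
      rw [e]
      exact continuous_const
  have hpar : ∀ i < L, ∀ r < nn S i, ∀ k < L, ∀ v ∈ PP (nn S),
      F i r (flp (nn S) k v) = sgn ((fun i _ k => if k = i then (1 : ZMod 2) else 0) i r k) *
        F i r v := by
    intro i _ r _ k _ v hv
    have hv' := flp_mem (nn S) k hv
    simp only [F, hv, hv', dite_true]
    by_cases hi : nz S i ≤ r / 2 ∧ r / 2 < nz S (i + 1)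
    · rw [if_pos hi, if_pos hi]
      have h0 : r / 2 ≠ 0 := by
        have := nz_pos S i
        omega
      have h1 : ent (T (PT.mk (flp (nn S) k v) hv', g)) 0 (r / 2) =
          (if k = i then (-1 : ℂ) else 1) * ent (T (PT.mk v hv, g)) 0 (r / 2) := by
        have h2 := hT.ent_flip k 0 (r / 2) (PT.mk v hv, g)
        rw [sk_zero, one_mul, sk_eq_sgn h0, lv_unique S hi.1 hi.2] at h2
        exact h2
      rw [h1]
      by_cases hk : k = i
      · simp [hk, sgn]
      · simp [hk, sgn]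
    · rw [if_neg hi, if_neg hi, mul_zero]
  obtain ⟨v, hv, h⟩ := triangular (nn S) (nn_pos S) L
    (fun i _ k => if k = i then (1 : ZMod 2) else 0) (fun i r => by simp)
    (fun i r k hik => by simp [hik.ne']) F hF hpar
  refine ⟨PT.mk v hv, fun j hj1 hjL => ?_⟩
  have hj0 : j ≠ 0 := by omega
  have hi : lv S j < L := by
    by_contra hcon
    push Not at hcon
    have := nz_mono S hcon
    have := lv_le S hj0
    omega
  have hb : nz S (lv S j) ≤ j ∧ j < nz S (lv S j + 1) := ⟨lv_le S hj0, lt_lv S j⟩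
  have e1 : (2 * j) / 2 = j := by omega
  have e2 : (2 * j + 1) / 2 = j := by omega
  have h1 := h (lv S j) hi (2 * j) (by unfold nn; omega)
  have h2 := h (lv S j) hi (2 * j + 1) (by unfold nn; omega)
  simp only [F, hv, dite_true, e1, e2, if_pos hb] at h1 h2
  rw [if_pos (by omega)] at h1
  rw [if_neg (by omega)] at h2
  exact Complex.ext h1 h2

section Ambient

variable {E : Type} [CStarAlgebra E] (M : Amb S E)

/-- the first matrix unit of level `L` -/
def e0 (L : ℕ) : ↥(A0 M) :=
  tc M (L := L) (onef_FN (S := S)) (nz_pos S L) (nz_pos S L) (par_even onef_even 0)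

lemma e0_toC (L : ℕ) : M.toC (e0 M L : E) = TC L onef 0 0 := toC_tc M _ _ _ _

/-- the diagonal matrix units of level `L` -/
def ed (L : ℕ) (i : Fin (nz S L)) : ↥(A0 M) :=
  tc M (L := L) (onef_FN (S := S)) i.2 i.2 (par_even onef_even i)

lemma ed_toC (L : ℕ) (i : Fin (nz S L)) : M.toC (ed M L i : E) = TC L onef i i := toC_tc M _ _ _ _

lemma onef_conj : (fun P : XX S => (starRingEnd ℂ) (onef P)) = onef := by
  funext P
  unfold onef
  exact map_one _

lemma e0_star (L : ℕ) : star (e0 M L) = e0 M L := by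
  apply ext_toC
  show M.toC (star (e0 M L : E)) = _
  rw [toC_star, e0_toC, TC_star onef_FN (nz_pos S L) (nz_pos S L), onef_conj]

lemma e0_mul (L : ℕ) : e0 M L * e0 M L = e0 M L := by
  apply ext_toC
  show M.toC ((e0 M L : E) * (e0 M L : E)) = _
  rw [toC_mul, e0_toC, TC_mul onef_FN onef_FN _ _ _ (nz_pos S L)]
  congr 1
  funext P
  unfold onef
  exact one_mul _

lemma e0_eq_ed (L : ℕ) : e0 M L = ed M L ⟨0, nz_pos S L⟩ := rfl

lemma sum_ed (L : ℕ) : ∑ i, ed M L i = 1 := by
  apply ext_toC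
  rw [coe_sum', toC_sum]
  have h1 : M.toC ((1 : ↥(A0 M)) : E) = 1 := toC_one M
  rw [h1, ← sum_TC_one L, Finset.sum_range]
  exact Finset.sum_congr rfl fun i _ => ed_toC M L i

/-- quasitraces are additive on commuting self-adjoint elements -/
lemma qsum {R : Type} [Ring R] [StarRing R] [Algebra ℂ R] [StarModule ℂ R] {τ : R → ℂ}
    (hτ : IsQuasitrace τ) {ι : Type*} (s : Finset ι) (x : ι → R) (hx : ∀ i, star (x i) = x i)
    (hc : ∀ i j, Commute (x i) (x j)) : τ (∑ i ∈ s, x i) = ∑ i ∈ s, τ (x i) := by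
  classical
  have h0 : τ 0 = 0 := by
    have h1 := hτ.linear 1 0 0 inferInstance inferInstance (Commute.refl 0) (by simp)
    rw [smul_zero, add_zero, one_mul] at h1
    have h2 : τ 0 + 0 = τ 0 + τ 0 := by rw [add_zero]; exact h1
    exact (add_left_cancel h2).symm
  induction s using Finset.induction_on with
  | empty => simpa using h0
  | insert a s ha ih =>
    rw [Finset.sum_insert ha, Finset.sum_insert ha]
    have h1 : IsSelfAdjoint (x a) := hx a
    have h2 : IsSelfAdjoint (∑ i ∈ s, x i) := by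
      unfold IsSelfAdjoint
      rw [star_sum]
      exact Finset.sum_congr rfl fun i _ => hx i
    have h3 : Commute (x a) (∑ i ∈ s, x i) := Commute.sum_right _ _ _ fun i _ => hc a i
    have h4 := hτ.linear 1 (x a) (∑ i ∈ s, x i) h1.isStarNormal h2.isStarNormal h3
      (by rw [h2.star_eq]; exact h3)
    rw [one_smul, one_mul] at h4
    rw [h4, ih]

/-- quasitraces do not depend on the diagonal entry -/
lemma qt_ed {τ : ↥(A0 M) → ℂ} (hτ : IsQuasitrace τ) (L : ℕ) (i : Fin (nz S L)) :
    τ (ed M L i) = τ (e0 M L) := by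
  have h0 := nz_pos S L
  -- the elements
  have hpar : ∀ c, Par2 (i : ℕ) 0 (psi (S := S) i c) := by
    intro c k P
    rw [psi_flip, sk_zero, mul_one]
  let y : ℕ → ↥(A0 M) := fun c => tc M (L := L) (psi_FN (i : ℕ) c) i.2 h0 (hpar c)
  have hy : ∀ c, M.toC (y c : E) = TC L (psi (i : ℕ) c) i 0 := fun c => toC_tc M _ _ _ _
  have hyy : ∀ c, M.toC ((y c * star (y c) : ↥(A0 M)) : E) =
      TC L (fun P => psi (i : ℕ) c P * psi (i : ℕ) c P) i i := by
    intro c
    show M.toC ((y c : E) * star (y c : E)) = _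
    rw [toC_mul, toC_star, hy, TC_star (psi_FN _ _) i.2 h0,
      TC_mul (psi_FN _ _) (psi_FN _ _).conj _ _ _ h0]
    congr 1
    funext P
    rw [psi_conj]
  have hyy' : ∀ c, M.toC ((star (y c) * y c : ↥(A0 M)) : E) =
      TC L (fun P => psi (i : ℕ) c P * psi (i : ℕ) c P) 0 0 := by
    intro c
    show M.toC (star (y c : E) * (y c : E)) = _
    rw [toC_mul, toC_star, hy, TC_star (psi_FN _ _) i.2 h0,
      TC_mul (psi_FN _ _).conj (psi_FN _ _) _ _ _ i.2]
    congr 1
    funext P
    rw [psi_conj]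
  have hcomm : ∀ (a : ℕ) (_ : a < nz S L) (φ ψ : XX S → ℂ) (_ : FN φ) (_ : FN ψ),
      TC L φ a a * TC L ψ a a = TC L ψ a a * TC L φ a a := by
    intro a ha φ ψ hφ hψ
    rw [TC_mul hφ hψ _ _ _ ha, TC_mul hψ hφ _ _ _ ha]
    congr 1
    funext P
    ring
  have hsq : ∀ c, FN (fun P : XX S => psi (i : ℕ) c P * psi (i : ℕ) c P) :=
    fun c => (psi_FN _ _).mul (psi_FN _ _)
  have s1 : ∑ c ∈ Finset.range (kk S i), y c * star (y c) = ed M L i := by
    apply ext_toC
    rw [coe_sum', toC_sum, ed_toC, Finset.sum_congr rfl fun c _ => hyy c,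
      TC_sum _ _ fun c _ => hsq c]
    congr 1
    funext P
    exact psi_sum _ P
  have s2 : ∑ c ∈ Finset.range (kk S i), star (y c) * y c = e0 M L := by
    apply ext_toC
    rw [coe_sum', toC_sum, e0_toC, Finset.sum_congr rfl fun c _ => hyy' c,
      TC_sum _ _ fun c _ => hsq c]
    congr 1
    funext P
    exact psi_sum _ P
  rw [← s1, ← s2, qsum hτ, qsum hτ]
  · exact Finset.sum_congr rfl fun c _ => (hτ.comm (y c)).symm
  · intro c; rw [star_mul, star_star]
  · intro c d
    apply ext_toC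
    show M.toC (((star (y c) * y c : ↥(A0 M)) : E) * ((star (y d) * y d : ↥(A0 M)) : E)) =
      M.toC (((star (y d) * y d : ↥(A0 M)) : E) * ((star (y c) * y c : ↥(A0 M)) : E))
    rw [toC_mul, toC_mul, hyy', hyy', hcomm 0 h0 _ _ (hsq c) (hsq d)]
  · intro c; rw [star_mul, star_star]
  · intro c d
    apply ext_toC
    show M.toC (((y c * star (y c) : ↥(A0 M)) : E) * ((y d * star (y d) : ↥(A0 M)) : E)) =
      M.toC (((y d * star (y d) : ↥(A0 M)) : E) * ((y c * star (y c) : ↥(A0 M)) : E))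
    rw [toC_mul, toC_mul, hyy, hyy, hcomm i i.2 _ _ (hsq c) (hsq d)]

lemma ed_star (L : ℕ) (i : Fin (nz S L)) : star (ed M L i) = ed M L i := by
  apply ext_toC
  show M.toC (star (ed M L i : E)) = _
  rw [toC_star, ed_toC, TC_star onef_FN i.2 i.2, onef_conj]

lemma ed_comm (L : ℕ) (i j : Fin (nz S L)) : Commute (ed M L i) (ed M L j) := by
  by_cases h : i = j
  · subst h; exact Commute.refl _
  · have h1 : ∀ a b : Fin (nz S L), a ≠ b → ed M L a * ed M L b = 0 := by
      intro a b hab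
      apply ext_toC
      show M.toC ((ed M L a : E) * (ed M L b : E)) = M.toC ((0 : ↥(A0 M)) : E)
      rw [toC_mul, ed_toC, ed_toC, TC_mul_ne onef_FN onef_FN _ _ _ _ a.2
        (fun h => hab (Fin.ext h))]
      exact (toC_zero M).symm
    show ed M L i * ed M L j = ed M L j * ed M L i
    rw [h1 i j h, h1 j i (Ne.symm h)]

/-- the values of the normalised quasitraces at the first matrix unit -/
lemma qt_e0 {τ : ↥(A0 M) → ℂ} (hτ : IsQuasitrace τ) (h1 : τ 1 = 1) (L : ℕ) :
    τ (e0 M L) = (nz S L : ℂ)⁻¹ := by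
  have h2 := qsum hτ Finset.univ (ed M L) (ed_star M L) (ed_comm M L)
  rw [sum_ed, h1, Finset.sum_congr rfl fun i _ => qt_ed M hτ L i] at h2
  simp only [Finset.sum_const, Finset.card_univ, Fintype.card_fin, nsmul_eq_mul] at h2
  exact eq_inv_of_mul_eq_one_right h2.symm

lemma qt_compl {τ : ↥(A0 M) → ℂ} (hτ : IsQuasitrace τ) (h1 : τ 1 = 1) (L : ℕ) :
    τ (1 - e0 M L) = 1 - (nz S L : ℂ)⁻¹ := by
  have hsa : IsSelfAdjoint (e0 M L) := e0_star M L
  have h2 := hτ.linear (-1) (e0 M L) 1 hsa.isStarNormal inferInstance (Commute.one_right _)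
    (by rw [star_one]; exact Commute.one_right _)
  have h3 : (-1 : ℂ) • e0 M L + 1 = 1 - e0 M L := by
    rw [neg_smul, one_smul]; abel
  rw [h3, qt_e0 M hτ h1, h1] at h2
  rw [h2]; ring

lemma toC_compl (L : ℕ) : M.toC ((1 - e0 M L : ↥(A0 M)) : E) = 1 - TC L onef 0 0 := by
  show M.toC ((1 : E) - (e0 M L : E)) = _
  rw [toC_sub, toC_one, e0_toC]

/-- no element `v b v*` is close to `a` -/
theorem not_close (L : ℕ) (w : ↥(A0 M)) :
    1 / 4 ≤ ‖w * (1 - e0 M L) * star w - e0 M L‖ := by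
  by_contra hcon
  push Not at hcon
  set b : ↥(A0 M) := 1 - e0 M L with hb
  have hnb : ‖b‖ ≤ 1 := by
    have h1 : star b * b = b := by
      have h2 : star b = b := by rw [hb, star_sub, star_one, e0_star]
      rw [h2, hb, mul_sub, sub_mul, sub_mul, e0_mul]
      simp
    have h3 : ‖b‖ * ‖b‖ = ‖b‖ := by
      rw [← CStarRing.norm_star_mul_self, h1]
    by_contra h4
    push Not at h4
    nlinarith [norm_nonneg b]
  set δ : ℝ := 1 / (8 * ‖w‖ + 8) with hδd
  have hw0 := norm_nonneg w
  have hδ : 0 < δ := by positivity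
  have hδ1 : δ ≤ 1 := by
    rw [hδd, div_le_one (by positivity)]; linarith
  obtain ⟨l, y, hl, hxy⟩ := A0_approx M w.2 hδ
  set y' : ↥(A0 M) := ⟨y, mem_A0 M ⟨l, hl⟩⟩ with hy'
  have hwy : ‖w - y'‖ ≤ δ := hxy
  have hyn : ‖y'‖ ≤ ‖w‖ + δ := by
    have h1 : y' = w - (w - y') := by abel
    calc ‖y'‖ = ‖w - (w - y')‖ := by rw [← h1]
      _ ≤ ‖w‖ + ‖w - y'‖ := norm_sub_le _ _
      _ ≤ ‖w‖ + δ := by linarith
  have h2 : ‖y' * b * star y' - e0 M L‖ < 1 / 2 := by
    have e1 : y' * b * star y' - e0 M L =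
        (w * b * star w - e0 M L) - (w - y') * b * star w - y' * b * star (w - y') := by
      rw [star_sub]; noncomm_ring
    have n1 : ‖(w - y') * b * star w‖ ≤ δ * ‖w‖ := by
      calc ‖(w - y') * b * star w‖ ≤ ‖(w - y') * b‖ * ‖star w‖ := norm_mul_le _ _
        _ ≤ (‖w - y'‖ * ‖b‖) * ‖star w‖ := by gcongr; exact norm_mul_le _ _
        _ ≤ (δ * 1) * ‖w‖ := by rw [norm_star]; gcongr
        _ = δ * ‖w‖ := by ring
    have n2 : ‖y' * b * star (w - y')‖ ≤ (‖w‖ + δ) * δ := by
      calc ‖y' * b * star (w - y')‖ ≤ ‖y' * b‖ * ‖star (w - y')‖ := norm_mul_le _ _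
        _ ≤ (‖y'‖ * ‖b‖) * ‖star (w - y')‖ := by gcongr; exact norm_mul_le _ _
        _ ≤ ((‖w‖ + δ) * 1) * δ := by rw [norm_star]; gcongr
        _ = (‖w‖ + δ) * δ := by ring
    have n3 : δ * ‖w‖ + (‖w‖ + δ) * δ ≤ 1 / 4 := by
      have h3 : δ * (8 * ‖w‖ + 8) = 1 := by
        rw [hδd]; field_simp
      nlinarith
    rw [e1]
    calc _ ≤ ‖(w * b * star w - e0 M L) - (w - y') * b * star w‖ +
          ‖y' * b * star (w - y')‖ := norm_sub_le _ _
      _ ≤ (‖w * b * star w - e0 M L‖ + ‖(w - y') * b * star w‖) +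
          ‖y' * b * star (w - y')‖ := by gcongr; exact norm_sub_le _ _
      _ < 1 / 2 := by linarith
  -- evaluate
  obtain ⟨g⟩ : Nonempty S.I := inferInstance
  set T : FF S := M.toC y with hT
  set K := max l L with hK
  have hTK : Lev S K T := hl.mono (le_max_left _ _)
  have hLK : L ≤ K := le_max_right _ _
  obtain ⟨p, hp⟩ := exists_zero hTK g K
  have hAL : Lev S L (TC L (onef (S := S)) 0 0) :=
    TC_lev onef_FN (nz_pos S L) (nz_pos S L) (par_even onef_even 0)
  have hBL : Lev S L (1 - TC L (onef (S := S)) 0 0) := (Lev.one L).sub hAL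
  have hBK := hBL.mono hLK
  have h4 : ‖ent ((M.toC ((y' * b * star y' - e0 M L : ↥(A0 M)) : E)) (p, g)) 0 0‖ < 1 / 2 := by
    refine lt_of_le_of_lt (norm_ent_le _ 0 0) ?_
    exact lt_of_le_of_lt (ev_norm_le M _ _) h2
  have h5 : M.toC ((y' * b * star y' - e0 M L : ↥(A0 M)) : E) =
      T * (1 - TC L onef 0 0) * star T - TC L onef 0 0 := by
    show M.toC ((y : E) * (b : E) * star (y : E) - (e0 M L : E)) = _
    rw [toC_sub, toC_mul, toC_mul, toC_star, e0_toC]
    have : M.toC (b : E) = 1 - TC L onef 0 0 := toC_compl M L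
    rw [this]
  have h6 : ent ((T * (1 - TC L (onef (S := S)) 0 0) * star T) (p, g)) 0 0 = 0 := by
    rw [Pi.mul_apply, hTK.star'.ent_mul le_rfl _ _ _ (nz_pos S K)]
    refine Finset.sum_eq_zero fun k hk => ?_
    by_cases hk0 : k = 0
    · subst hk0
      have : ent ((T * (1 - TC L (onef (S := S)) 0 0)) (p, g)) 0 0 = 0 := by
        rw [Pi.mul_apply, hBK.ent_mul le_rfl _ _ _ (nz_pos S K)]
        refine Finset.sum_eq_zero fun j hj => ?_
        by_cases hj0 : j = 0
        · subst hj0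
          have : ent ((1 - TC L (onef (S := S)) 0 0) (p, g)) 0 0 = 0 := by
            rw [Pi.sub_apply, ent_sub, Pi.one_apply, ent_one, if_pos rfl,
              TC_ent onef_FN _ (nz_pos S L), if_pos ⟨rfl, rfl⟩]
            unfold onef
            ring
          rw [this, mul_zero]
        · rw [hp j (by omega) (Finset.mem_range.mp hj), zero_mul]
      rw [this, zero_mul]
    · have : ent ((star T) (p, g)) k 0 = 0 := by
        rw [Pi.star_apply, ent_star, hp k (by omega) (Finset.mem_range.mp hk), map_zero]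
      rw [this, mul_zero]
  rw [h5, Pi.sub_apply, ent_sub, h6, TC_ent onef_FN _ (nz_pos S L), if_pos ⟨rfl, rfl⟩] at h4
  unfold onef at h4
  norm_num at h4

end Ambient

end

end Pool.Agent.H252.VR
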