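import Mathlib

/-!
# Definitions: quasitraces, Cuntz comparison, radius of comparison, Rokhlin properties
-/

set_option autoImplicit false

namespace Pool.Agent.H252.VR.Defs

open Filter Topology
open scoped ENNReal NNReal

noncomputable section

/-- `τ` is a tracial state on the unital C*-algebra `A`. -/
structure IsTracialState {A : Type} [CStarAlgebra A] (τ : A →ₗ[ℂ] ℂ) : Prop where
  nonneg : ∀ x : A, 0 ≤ (τ (star x * x)).re ∧ (τ (star x * x)).im = 0
  comm : ∀ x y : A, τ (x * y) = τ (y * x)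
  map_one : τ 1 = 1

/-- `A` is stably finite: in every matrix algebra over `A` every isometry is a unitary. -/
def StablyFinite (A : Type) [CStarAlgebra A] : Prop :=
  ∀ (n : ℕ) (v : Matrix (Fin n) (Fin n) A), star v * v = 1 → v * star v = 1

/-- The axioms of a (1-)quasitrace on a unital *-algebra: `0 ≤ τ(x* x) = τ(x x*)`,
`τ(a + i b) = τ(a) + i τ(b)` for self-adjoint `a`, `b`, and `τ` is linear on commutative
*-subalgebras (two elements lie in a common commutative *-subalgebra if and only if they are normal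
and each commutes with the other and its adjoint). -/
structure IsQuasitrace {R : Type} [Ring R] [StarRing R] [Algebra ℂ R] (τ : R → ℂ) : Prop where
  nonneg : ∀ x : R, 0 ≤ (τ (star x * x)).re ∧ (τ (star x * x)).im = 0
  comm : ∀ x : R, τ (star x * x) = τ (x * star x)
  add_I : ∀ a b : R, IsSelfAdjoint a → IsSelfAdjoint b →
    τ (a + Complex.I • b) = τ a + Complex.I * τ b
  linear : ∀ (c : ℂ) (x y : R), IsStarNormal x → IsStarNormal y → Commute x y →
    Commute x (star y) → τ (c • x + y) = c * τ x + τ y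

/-- The normalised 2-quasitraces on `A`: quasitraces `τ` with `τ(1) = 1` which extend to a
quasitrace on the 2 × 2 matrices over `A`. -/
structure QT (A : Type) [CStarAlgebra A] where
  val : A → ℂ
  isQuasitrace : IsQuasitrace val
  map_one : val 1 = 1
  two : ∃ τ₂ : Matrix (Fin 2) (Fin 2) A → ℂ, IsQuasitrace τ₂ ∧ ∀ a : A, τ₂ !![a, 0; 0, 0] = val a

section

variable {A : Type} [CStarAlgebra A]

/-- Positive matrices over the C*-algebra `A`. -/
def IsPos {n : ℕ} (a : Matrix (Fin n) (Fin n) A) : Prop := ∃ x, a = star x * x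

/-- `σ` is a quasitrace on the `n × n` matrices over `A` which extends `τ`: the value at a matrix
with one nonzero entry `x`, which is on the diagonal, is `τ x`. -/
def Extends {n : ℕ} (τ : A → ℂ) (σ : Matrix (Fin n) (Fin n) A → ℂ) : Prop :=
  IsQuasitrace σ ∧ ∀ (i : Fin n) (x : A), σ (Matrix.single i i x) = τ x

/-- The limit `d_σ(a) = lim σ(a^{1/m})` exists and equals `d`; here `a^{1/m}` is the positive
`m`-th root of the positive matrix `a`. -/
def HasDim {n : ℕ} (σ : Matrix (Fin n) (Fin n) A → ℂ) (a : Matrix (Fin n) (Fin n) A) (d : ℝ) :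
    Prop :=
  ∃ r : ℕ → Matrix (Fin n) (Fin n) A, (∀ m, IsPos (r m) ∧ r m ^ (m + 1) = a) ∧
    Tendsto (fun m => (σ (r m)).re) atTop (𝓝 d)

/-- Cuntz subequivalence `a ≾ b` of positive matrices over `A`: `a` is the limit of elements
`v b v*` (convergence of matrices over a C*-algebra is convergence of all entries). -/
def CuntzLE {n : ℕ} (a b : Matrix (Fin n) (Fin n) A) : Prop :=
  ∀ ε : ℝ, 0 < ε → ∃ v : Matrix (Fin n) (Fin n) A, ∀ i j, ‖(v * b * star v - a) i j‖ < ε

/-- `d_τ(a) + r < d_τ(b)` for all normalised 2-quasitraces `τ` on `A` (extended to matrices). -/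
def RankLT {n : ℕ} (r : ℝ) (a b : Matrix (Fin n) (Fin n) A) : Prop :=
  ∀ τ : QT A, ∃ σ : Matrix (Fin n) (Fin n) A → ℂ, Extends τ.val σ ∧
    ∃ d e : ℝ, HasDim σ a d ∧ HasDim σ b e ∧ d + r < e

end

/-- The radius of comparison of `A`: the infimum of all `r ≥ 0` such that `a ≾ b` for all positive
matrices `a`, `b` over `A` with `d_τ(a) + r < d_τ(b)` for all normalised 2-quasitraces `τ`. -/
def rc (A : Type) [CStarAlgebra A] : ℝ≥0∞ :=
  sInf {s : ℝ≥0∞ | ∃ r : ℝ≥0, s = r ∧ ∀ (n : ℕ) (a b : Matrix (Fin n) (Fin n) A),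
    IsPos a → IsPos b → RankLT (r : ℝ) a b → CuntzLE a b}

/-- The Rokhlin property of an action of a finite group. -/
def Rokhlin {G : Type} [Group G] [Fintype G] {A : Type} [CStarAlgebra A]
    (α : G →* (A ≃⋆ₐ[ℂ] A)) : Prop :=
  ∀ (F : Finset A) (ε : ℝ), 0 < ε → ∃ e : G → A, (∀ g, IsStarProjection (e g)) ∧
    (∀ g h, g ≠ h → e g * e h = 0) ∧ ∑ g, e g = 1 ∧
    (∀ g h, ‖α g (e h) - e (g * h)‖ < ε) ∧ ∀ g, ∀ a ∈ F, ‖e g * a - a * e g‖ < ε

end

end Pool.Agent.H252.VR.Defs
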