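import Pool.Agent.H252.VR.RC

/-!
# The main theorem
-/

set_option autoImplicit false

namespace Pool.Agent.H252.VR

open Pool.Agent.H252.VR.Defs

noncomputable section

/-- composing a tracial state with an automorphism -/
lemma tracial_comp {A : Type} [CStarAlgebra A] {τ : A →ₗ[ℂ] ℂ} (h : IsTracialState τ)
    (φ : A ≃⋆ₐ[ℂ] A) : IsTracialState (τ ∘ₗ (φ : A →ₗ[ℂ] A)) where
  nonneg x := by
    show 0 ≤ (τ (φ (star x * x))).re ∧ (τ (φ (star x * x))).im = 0
    rw [map_mul, map_star]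
    exact h.nonneg _
  comm x y := by
    show τ (φ (x * y)) = τ (φ (y * x))
    rw [map_mul φ, map_mul φ, h.comm]
  map_one := by
    show τ (φ 1) = 1
    rw [map_one, h.map_one]

/-- a unique tracial state is invariant under all automorphisms -/
lemma unique_invariant {A : Type} [CStarAlgebra A] (hu : ∃! τ : A →ₗ[ℂ] ℂ, IsTracialState τ)
    {τ : A →ₗ[ℂ] ℂ} (h : IsTracialState τ) (φ : A ≃⋆ₐ[ℂ] A) (x : A) : τ (φ x) = τ x := by
  have h1 := hu.unique (tracial_comp h φ) h
  exact congrArg (fun f : A →ₗ[ℂ] ℂ => f x) h1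

theorem main (G : Type) [Group G] [Fintype G] :
    ∃ (A : Type) (_ : CStarAlgebra A), TopologicalSpace.SeparableSpace A ∧ IsSimpleRing A ∧
      StablyFinite A ∧ (∃! τ : A →ₗ[ℂ] ℂ, IsTracialState τ) ∧ 1 ≤ rc A ∧
      ∃ α : G →* (A ≃⋆ₐ[ℂ] A), Rokhlin α :=
  ⟨AG G, inferInstance, separable (amb (SG G)), simple (amb (SG G)), stably_finite (amb (SG G)),
    exists_unique_trace (amb (SG G)), one_le_rc (amb (SG G)), act G, rokhlin G⟩

end

end Pool.Agent.H252.VR
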