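import Pool.Agent.H252.VR.Rok

/-!
# The radius of comparison is at least one
-/

set_option autoImplicit false

namespace Pool.Agent.H252.VR

open scoped ENNReal NNReal BoundedContinuousFunction
open Filter Topology
open Pool.Agent.H252.VR.Defs

noncomputable section

section One

variable {A : Type} [CStarAlgebra A]

lemma m1_mul (x y : Matrix (Fin 1) (Fin 1) A) : (x * y) 0 0 = x 0 0 * y 0 0 := by
  simp [Matrix.mul_apply]

lemma m1_star (x : Matrix (Fin 1) (Fin 1) A) : (star x) 0 0 = star (x 0 0) := rfl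

/-- the 1 × 1 matrix with entry `a` -/
def m1 (a : A) : Matrix (Fin 1) (Fin 1) A := fun _ _ => a

lemma m1_ext {x y : Matrix (Fin 1) (Fin 1) A} (h : x 0 0 = y 0 0) : x = y := by
  funext i j
  have hi : i = 0 := Subsingleton.elim _ _
  have hj : j = 0 := Subsingleton.elim _ _
  rw [hi, hj, h]

lemma m1_mul' (a b : A) : m1 a * m1 b = m1 (a * b) := m1_ext (m1_mul _ _)

lemma m1_star' (a : A) : star (m1 a) = m1 (star a) := rfl

lemma m1_pow {a : A} (h : a * a = a) (m : ℕ) : m1 a ^ (m + 1) = m1 a := by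
  induction m with
  | zero => rw [zero_add, pow_one]
  | succ m ih => rw [pow_succ, ih, m1_mul', h]

/-- extension to 1 × 1 matrices -/
lemma qt_one {τ : A → ℂ} (h : IsQuasitrace τ) :
    Extends τ (fun x : Matrix (Fin 1) (Fin 1) A => τ (x 0 0)) := by
  refine ⟨⟨fun x => ?_, fun x => ?_, fun a b ha hb => ?_, fun c x y hx hy h1 h2 => ?_⟩,
    fun i x => ?_⟩
  · show 0 ≤ (τ ((star x * x) 0 0)).re ∧ (τ ((star x * x) 0 0)).im = 0
    rw [m1_mul, m1_star]
    exact h.nonneg _
  · show τ ((star x * x) 0 0) = τ ((x * star x) 0 0)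
    rw [m1_mul, m1_mul, m1_star]
    exact h.comm _
  · show τ (a 0 0 + Complex.I • b 0 0) = τ (a 0 0) + Complex.I * τ (b 0 0)
    refine h.add_I _ _ ?_ ?_
    · have := congrFun (congrFun ha.star_eq 0) 0
      exact this
    · have := congrFun (congrFun hb.star_eq 0) 0
      exact this
  · show τ (c • x 0 0 + y 0 0) = c * τ (x 0 0) + τ (y 0 0)
    refine h.linear c _ _ ⟨?_⟩ ⟨?_⟩ ?_ ?_
    · have := congrFun (congrFun hx.star_comm_self.eq 0) 0
      rw [m1_mul, m1_mul] at this
      exact this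
    · have := congrFun (congrFun hy.star_comm_self.eq 0) 0
      rw [m1_mul, m1_mul] at this
      exact this
    · have := congrFun (congrFun h1.eq 0) 0
      rw [m1_mul, m1_mul] at this
      exact this
    · have := congrFun (congrFun h2.eq 0) 0
      rw [m1_mul, m1_mul] at this
      exact this
  · have hi : i = 0 := Subsingleton.elim _ _
    subst hi
    show τ (Matrix.single 0 0 x 0 0) = τ x
    rw [Matrix.single_apply_same]

lemma m1_pos {a : A} (h1 : star a = a) (h2 : a * a = a) : IsPos (m1 a) :=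
  ⟨m1 a, by rw [m1_star', h1, m1_mul', h2]⟩

lemma m1_dim {τ : A → ℂ} {a : A} (h1 : star a = a) (h2 : a * a = a) :
    HasDim (fun x : Matrix (Fin 1) (Fin 1) A => τ (x 0 0)) (m1 a) (τ a).re :=
  ⟨fun _ => m1 a, fun m => ⟨m1_pos h1 h2, m1_pow h2 m⟩, tendsto_const_nhds⟩

/-- a criterion: comparison fails for a pair of projections -/
lemma le_of_proj {r : ℝ≥0} (hr : ∀ (n : ℕ) (a b : Matrix (Fin n) (Fin n) A),
    IsPos a → IsPos b → RankLT (r : ℝ) a b → CuntzLE a b) {p q : A} (hp : star p = p)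
    (hp2 : p * p = p) (hq : star q = q) (hq2 : q * q = q) {s : ℝ}
    (hs : ∀ τ : QT A, (τ.val p).re + s ≤ (τ.val q).re)
    (hcl : ∀ w : A, 1 / 4 ≤ ‖w * q * star w - p‖) : s ≤ r := by
  by_contra hcon
  push Not at hcon
  have h := hr 1 (m1 p) (m1 q) (m1_pos hp hp2) (m1_pos hq hq2) fun τ =>
    ⟨fun x => τ.val (x 0 0), qt_one τ.isQuasitrace, (τ.val p).re, (τ.val q).re, m1_dim hp hp2,
      m1_dim hq hq2, by have := hs τ; linarith⟩
  obtain ⟨v, hv⟩ := h (1 / 4) (by norm_num)
  have h1 := hv 0 0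
  have h2 : (v * m1 q * star v - m1 p) 0 0 = v 0 0 * q * star (v 0 0) - p := by
    show (v * m1 q * star v) 0 0 - p = _
    rw [m1_mul, m1_mul, m1_star]
    rfl
  rw [h2] at h1
  exact absurd (hcl (v 0 0)) (not_le.mpr h1)

end One

variable {S : Sys} {E : Type} [CStarAlgebra E] (M : Amb S E)

theorem one_le_rc : 1 ≤ rc ↥(A0 M) := by
  unfold rc
  refine le_sInf ?_
  rintro s ⟨r, rfl, hr⟩
  have key : ∀ L : ℕ, 1 - 2 * ((nz S L : ℝ)⁻¹) ≤ r := by
    intro L
    refine le_of_proj hr (p := e0 M L) (q := 1 - e0 M L) (e0_star M L) (e0_mul M L) ?_ ?_ ?_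
      (not_close M L)
    · rw [star_sub, star_one, e0_star]
    · rw [sub_mul, mul_sub, mul_sub, one_mul, mul_one, e0_mul]
      simp
    · intro τ
      have h1 := qt_e0 M τ.isQuasitrace τ.map_one L
      have h2 := qt_compl M τ.isQuasitrace τ.map_one L
      rw [h1, h2]
      have h3 : ((nz S L : ℂ)⁻¹).re = (nz S L : ℝ)⁻¹ := by
        rw [← Complex.ofReal_natCast, ← Complex.ofReal_inv, Complex.ofReal_re]
      rw [Complex.sub_re, Complex.one_re, h3]
      linarith
  have h1 : (1 : ℝ) ≤ r := by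
    have hlim : Tendsto (fun L : ℕ => 1 - 2 * ((nz S L : ℝ)⁻¹)) atTop (𝓝 (1 - 2 * 0)) := by
      refine tendsto_const_nhds.sub (tendsto_const_nhds.mul ?_)
      refine tendsto_inv_atTop_zero.comp ?_
      refine tendsto_natCast_atTop_atTop.comp ?_
      exact tendsto_atTop_mono (fun L => (lt_nz S L).le) tendsto_id
    rw [mul_zero, sub_zero] at hlim
    exact le_of_tendsto hlim (Eventually.of_forall key)
  have h2 : (1 : ℝ≥0) ≤ r := by exact_mod_cast h1
  exact_mod_cast h2

end

end Pool.Agent.H252.VR
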