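import Pool.Agent.H252.VR.Act

/-!
# The Rokhlin property of the translation action
-/

set_option autoImplicit false

namespace Pool.Agent.H252.VR

open scoped ENNReal NNReal BoundedContinuousFunction
open Pool.Agent.Helper133.BT Pool.Agent.Helper133.BU Filter Topology
open Pool.Agent.Y269.GP (HH wp Good ee wp_apply norm_wp_le op_ext mulA oneA op_ext' star_wp ee_apply
  inner_ee proj_mem)
open Pool.Agent.H252.VR.Defs

noncomputable section

variable {S : Sys}

/-- two self-similar functions with the same first block are equal -/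
lemma Lev.ext {l : ℕ} {U T : FF S} (hU : Lev S l U) (hT : Lev S l T)
    (h0 : ∀ p i j, i < nz S l → j < nz S l → ent (U p) i j = ent (T p) i j) : U = T := by
  have h := (hU.sub hT).eq_zero fun p i j hi hj => by
    rw [Pi.sub_apply, ent_sub, h0 p i j hi hj, sub_self]
  exact sub_eq_zero.mp h

/-- the projection onto a component, at level `L` -/
def PG (L : ℕ) (g : S.I) : FF S := ∑ a ∈ Finset.range (nz S L), TC L (indf g) a a

lemma indf_flip (g : S.I) (k : ℕ) (P : XX S) : indf g (flip k P) = indf g P := rfl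

lemma PG_lev (L : ℕ) (g : S.I) : Lev S L (PG L g) :=
  Lev.sum _ fun a ha => TC_lev (indf_FN g) (Finset.mem_range.mp ha) (Finset.mem_range.mp ha)
    (par_even (indf_flip g) a)

lemma PG_ent (L : ℕ) (g : S.I) (P : XX S) {i j : ℕ} (hi : i < nz S L) :
    ent (PG L g P) i j = if i = j then indf g P else 0 := by
  unfold PG
  rw [Finset.sum_apply, ent_sum]
  rw [Finset.sum_congr rfl fun a _ => TC_ent (indf_FN g) P hi]
  by_cases h : i = j
  · subst h
    rw [if_pos rfl, Finset.sum_eq_single i]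
    · rw [if_pos ⟨rfl, rfl⟩]
    · intro b _ hb
      rw [if_neg]
      rintro ⟨h, -⟩
      exact hb h.symm
    · intro h
      exact absurd (Finset.mem_range.mpr hi) h
  · rw [if_neg h]
    refine Finset.sum_eq_zero fun a _ => ?_
    rw [if_neg]
    rintro ⟨h1, h2⟩
    exact h (h1.trans h2.symm)

lemma PG_comm {L : ℕ} (g : S.I) {T : FF S} (hT : Lev S L T) : PG L g * T = T * PG L g := by
  refine ((PG_lev L g).mul hT).ext (hT.mul (PG_lev L g)) fun P i j hi hj => ?_
  rw [Pi.mul_apply, Pi.mul_apply, hT.ent_mul le_rfl _ _ _ hj, (PG_lev L g).ent_mul le_rfl _ _ _ hj,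
    Finset.sum_eq_single i, Finset.sum_eq_single j]
  · rw [PG_ent L g P hi, PG_ent L g P hj, if_pos rfl, if_pos rfl, mul_comm]
  · intro b hb hbj
    rw [PG_ent L g P (Finset.mem_range.mp hb), if_neg hbj, mul_zero]
  · intro h
    exact absurd (Finset.mem_range.mpr hj) h
  · intro b _ hbi
    rw [PG_ent L g P hi, if_neg (fun h => hbi h.symm), zero_mul]
  · intro h
    exact absurd (Finset.mem_range.mpr hi) h

lemma indf_mul_self (g : S.I) (P : XX S) : indf g P * indf g P = indf g P := by
  unfold indf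
  split_ifs <;> simp

lemma indf_mul_ne {g h : S.I} (hgh : g ≠ h) (P : XX S) : indf g P * indf h P = 0 := by
  unfold indf
  by_cases h1 : P.2 = g
  · rw [if_pos h1, if_neg (fun h2 => hgh (h1.symm.trans h2)), mul_zero]
  · rw [if_neg h1, zero_mul]

lemma PG_mul_ent (L : ℕ) (g h : S.I) (P : XX S) {i j : ℕ} (hi : i < nz S L) (hj : j < nz S L) :
    ent ((PG L g * PG L h) P) i j = if i = j then indf g P * indf h P else 0 := by
  rw [Pi.mul_apply, (PG_lev L h).ent_mul le_rfl _ _ _ hj, Finset.sum_eq_single i]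
  · rw [PG_ent L g P hi, PG_ent L h P hi, if_pos rfl]
    split_ifs <;> simp
  · intro b _ hbi
    rw [PG_ent L g P hi, if_neg (fun h => hbi h.symm), zero_mul]
  · intro h
    exact absurd (Finset.mem_range.mpr hi) h

lemma PG_mul_self (L : ℕ) (g : S.I) : PG L g * PG L g = PG L g := by
  refine ((PG_lev L g).mul (PG_lev L g)).ext (PG_lev L g) fun P i j hi hj => ?_
  rw [PG_mul_ent L g g P hi hj, PG_ent L g P hi, indf_mul_self]

lemma PG_mul_ne (L : ℕ) {g h : S.I} (hgh : g ≠ h) : PG L g * PG L h = 0 := by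
  refine ((PG_lev L g).mul (PG_lev L h)).ext (Lev.zero L) fun P i j hi hj => ?_
  rw [PG_mul_ent L g h P hi hj, indf_mul_ne hgh, ite_self]
  rfl

lemma PG_star (L : ℕ) (g : S.I) : star (PG L g) = PG L g := by
  refine ((PG_lev L g).star').ext (PG_lev L g) fun P i j hi hj => ?_
  rw [Pi.star_apply, ent_star, PG_ent L g P hi, PG_ent L g P hj]
  by_cases h : i = j
  · subst h
    rw [if_pos rfl]
    unfold indf
    split_ifs <;> simp
  · rw [if_neg h, if_neg (fun h' => h h'.symm), map_zero]

lemma sum_indf (P : XX S) : ∑ g : S.I, indf g P = 1 := by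
  classical
  rw [Finset.sum_eq_single P.2]
  · unfold indf
    rw [if_pos rfl]
  · intro b _ hb
    unfold indf
    rw [if_neg (fun h => hb h.symm)]
  · intro h
    exact absurd (Finset.mem_univ _) h

lemma sum_PG (L : ℕ) : ∑ g : S.I, PG L g = 1 := by
  refine (Lev.sum _ fun g _ => PG_lev L g).ext (Lev.one L) fun P i j hi hj => ?_
  rw [Finset.sum_apply, ent_sum, Finset.sum_congr rfl fun g _ => PG_ent L g P hi]
  rw [Pi.one_apply, ent_one]
  by_cases h : i = j
  · simp only [if_pos h]
    exact sum_indf P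
  · simp only [if_neg h]
    exact Finset.sum_const_zero

section Amb

variable {E : Type} [CStarAlgebra E] (M : Amb S E)

/-- the projection onto a component, at level `L` -/
def pg (L : ℕ) (g : S.I) : ↥(A0 M) := el M (PG_lev L g)

lemma pg_toC (L : ℕ) (g : S.I) : M.toC (pg M L g : E) = PG L g := toC_el M _

lemma pg_proj (L : ℕ) (g : S.I) : IsStarProjection (pg M L g) := by
  constructor
  · apply ext_toC
    show M.toC ((pg M L g : E) * (pg M L g : E)) = _
    rw [toC_mul, pg_toC, PG_mul_self]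
  · apply ext_toC
    show M.toC (star (pg M L g : E)) = _
    rw [toC_star, pg_toC, PG_star]

lemma pg_mul_ne (L : ℕ) {g h : S.I} (hgh : g ≠ h) : pg M L g * pg M L h = 0 := by
  apply ext_toC
  show M.toC ((pg M L g : E) * (pg M L h : E)) = M.toC ((0 : ↥(A0 M)) : E)
  rw [toC_mul, pg_toC, pg_toC, PG_mul_ne L hgh]
  exact (toC_zero M).symm

lemma sum_pg (L : ℕ) : ∑ g, pg M L g = 1 := by
  apply ext_toC
  rw [coe_sum', toC_sum]
  have h1 : M.toC ((1 : ↥(A0 M)) : E) = 1 := toC_one M
  rw [h1, ← sum_PG L]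
  exact Finset.sum_congr rfl fun g _ => pg_toC M L g

lemma pg_comm {L : ℕ} (g : S.I) {y : E} (hy : Lev S L (M.toC y)) :
    (pg M L g : E) * y = y * (pg M L g : E) := by
  apply toC_inj M
  rw [toC_mul, toC_mul, pg_toC, PG_comm g hy]

lemma norm_pg_le (L : ℕ) (g : S.I) : ‖pg M L g‖ ≤ 1 := by
  have h1 : star (pg M L g) * pg M L g = pg M L g := by
    rw [(pg_proj M L g).isSelfAdjoint.star_eq, (pg_proj M L g).isIdempotentElem.eq]
  have h2 : ‖pg M L g‖ * ‖pg M L g‖ = ‖pg M L g‖ := by
    rw [← CStarRing.norm_star_mul_self, h1]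
  nlinarith [norm_nonneg (pg M L g)]

/-- approximate centrality -/
lemma pg_approx (F : Finset ↥(A0 M)) {ε : ℝ} (hε : 0 < ε) :
    ∃ L, ∀ g : S.I, ∀ a ∈ F, ‖pg M L g * a - a * pg M L g‖ < ε := by
  classical
  choose! l y hl hy using fun (a : ↥(A0 M)) => A0_approx M a.2 (show 0 < ε / 4 by positivity)
  refine ⟨F.sup l, fun g a ha => ?_⟩
  have h1 : Lev S (F.sup l) (M.toC (y a)) := (hl a).mono (Finset.le_sup (f := l) ha)
  have h2 := pg_comm M g h1
  have h3 : ((pg M (F.sup l) g * a - a * pg M (F.sup l) g : ↥(A0 M)) : E) =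
      (pg M (F.sup l) g : E) * ((a : E) - y a) - ((a : E) - y a) * (pg M (F.sup l) g : E) := by
    show (pg M (F.sup l) g : E) * (a : E) - (a : E) * (pg M (F.sup l) g : E) = _
    rw [mul_sub, sub_mul, h2]
    abel
  have h4 : ‖(pg M (F.sup l) g : E)‖ ≤ 1 := norm_pg_le M _ g
  have h5 : ‖(a : E) - y a‖ ≤ ε / 4 := hy a
  have h6 : ‖(pg M (F.sup l) g : E) * ((a : E) - y a)‖ ≤ ε / 4 := by
    refine (norm_mul_le _ _).trans ?_
    nlinarith [norm_nonneg ((a : E) - y a), norm_nonneg (pg M (F.sup l) g : E)]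
  have h7 : ‖((a : E) - y a) * (pg M (F.sup l) g : E)‖ ≤ ε / 4 := by
    refine (norm_mul_le _ _).trans ?_
    nlinarith [norm_nonneg ((a : E) - y a), norm_nonneg (pg M (F.sup l) g : E)]
  have h8 : ‖((pg M (F.sup l) g * a - a * pg M (F.sup l) g : ↥(A0 M)) : E)‖ < ε := by
    rw [h3]
    refine (norm_sub_le _ _).trans_lt ?_
    linarith
  exact h8

end Amb

/-! ### the group case -/

section Group

variable (G : Type) [Group G] [Fintype G]

lemma indf_sh (k g : G) (P : XX (SG G)) :
    indf (S := SG G) g (sh G k P) = indf (S := SG G) (show G from k * g) P := by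
  classical
  have h : (sh G k P).2 = g ↔ P.2 = (show (SG G).I from (show G from k * g)) := by
    constructor
    · intro h
      have h' : k⁻¹ * cmp P = g := h
      have : cmp P = k * g := by rw [← h', mul_inv_cancel_left]
      exact this
    · intro h
      have h' : cmp P = k * g := h
      have : k⁻¹ * cmp P = g := by rw [h', inv_mul_cancel_left]
      exact this
  unfold indf
  by_cases h' : (sh G k P).2 = g
  · rw [if_pos h', if_pos (h.mp h')]
  · rw [if_neg h', if_neg (fun h'' => h' (h.mpr h''))]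

lemma act_pg (L : ℕ) (k g : G) :
    act G k (pg (amb (SG G)) L g) = pg (amb (SG G)) L (show G from k * g) := by
  apply ext_toC
  show (amb (SG G)).toC (pull (sh G k) (pg (amb (SG G)) L g : EA (SG G))) = _
  rw [pull_toC, pg_toC, pg_toC]
  refine (sh_lev G k L _ (PG_lev L g)).ext (PG_lev L _) fun P i j hi hj => ?_
  rw [PG_ent L _ _ hi, PG_ent L _ _ hi, indf_sh]

/-- the Rokhlin projections -/
def rp (L : ℕ) (g : G) : AG G := pg (amb (SG G)) L g

lemma rp_proj (L : ℕ) (g : G) : IsStarProjection (rp G L g) := pg_proj (amb (SG G)) L g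

lemma rp_mul_ne (L : ℕ) (g h : G) (hgh : g ≠ h) : rp G L g * rp G L h = 0 :=
  pg_mul_ne (amb (SG G)) L (g := g) (h := h) hgh

lemma sum_rp (L : ℕ) : ∑ g : G, rp G L g = 1 := sum_pg (amb (SG G)) L

lemma act_rp (L : ℕ) (k g : G) : act G k (rp G L g) = rp G L (k * g) := act_pg G L k g

/-- the action has the Rokhlin property -/
theorem rokhlin : Rokhlin (act G) := by
  intro F ε hε
  obtain ⟨L, hL⟩ := pg_approx (amb (SG G)) F hε
  refine ⟨rp G L, rp_proj G L, rp_mul_ne G L, sum_rp G L, fun g h => ?_, fun g a ha => hL g a ha⟩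
  rw [act_rp, sub_self, norm_zero]
  exact hε

end Group

end

end Pool.Agent.H252.VR
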