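import Pool.Agent.H252.VR.Lv

/-!
# Self-similar functions with one nonzero entry in the first block
-/

set_option autoImplicit false

namespace Pool.Agent.H252.VR

open scoped ENNReal
open Pool.Agent.Helper133.BT Pool.Agent.Helper133.BU Filter Topology Pool.Agent.Y269.GP

noncomputable section

variable {S : Sys}

variable (S) in
def sgm (L b i : ℕ) : ℕ := nz S L * (i / nz S L) + b

def wt (L : ℕ) (φ : XX S → ℂ) (a : ℕ) (p : XX S) (i : ℕ) : ℂ :=
  if i % nz S L = a then φ (DD (nz S L * (i / nz S L)) p) else 0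

lemma wt_ne {L : ℕ} {φ : XX S → ℂ} {a : ℕ} {p : XX S} {i : ℕ} (h : wt L φ a p i ≠ 0) :
    i % nz S L = a ∧ wt L φ a p i = φ (DD (nz S L * (i / nz S L)) p) := by
  unfold wt at h ⊢
  by_cases h' : i % nz S L = a
  · exact ⟨h', if_pos h'⟩
  · rw [if_neg h'] at h; exact absurd rfl h

lemma sgm_div {L b : ℕ} (hb : b < nz S L) (i : ℕ) : sgm S L b i / nz S L = i / nz S L := by
  unfold sgm
  rw [Nat.mul_add_div (nz_pos S L), Nat.div_eq_of_lt hb, add_zero]

lemma sgm_mod {L b : ℕ} (hb : b < nz S L) (i : ℕ) : sgm S L b i % nz S L = b := by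
  unfold sgm
  rw [Nat.mul_add_mod, Nat.mod_eq_of_lt hb]

lemma sgm_self {L i : ℕ} : sgm S L (i % nz S L) i = i := Nat.div_add_mod i (nz S L)

lemma sgm_sgm {L b : ℕ} (hb : b < nz S L) (c i : ℕ) : sgm S L c (sgm S L b i) = sgm S L c i := by
  unfold sgm
  rw [Nat.mul_add_div (nz_pos S L), Nat.div_eq_of_lt hb, add_zero]

lemma norm_wt_le {L : ℕ} {φ : XX S → ℂ} {C : ℝ} (hC0 : 0 ≤ C) (hC : ∀ p, ‖φ p‖ ≤ C) (a : ℕ)
    (p : XX S) (i : ℕ) : ‖wt L φ a p i‖ ≤ C := by
  unfold wt
  split_ifs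
  · exact hC _
  · simpa using hC0

lemma TC_good {L : ℕ} {φ : XX S → ℂ} (hφ : FN φ) (a b : ℕ) (p : XX S) :
    Good (sgm S L b) (wt L φ a p) := by
  obtain ⟨C, hC0, hC⟩ := hφ.bdd
  refine ⟨?_, C, norm_wt_le hC0 hC a p⟩
  intro i j hi hj hij
  have h1 := (wt_ne hi).1
  have h2 := (wt_ne hj).1
  unfold sgm at hij
  rw [← Nat.div_add_mod i (nz S L), ← Nat.div_add_mod j (nz S L), h1, h2]
  omega

/-- the function with first block `φ • e_{ab}` -/
def TC (L : ℕ) (φ : XX S → ℂ) (a b : ℕ) : FF S := fun p => wp (sgm S L b) (wt L φ a p)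

lemma TC_apply {L : ℕ} {φ : XX S → ℂ} (hφ : FN φ) (a b : ℕ) (p : XX S) (f : HH) (i : ℕ) :
    TC L φ a b p f i = wt L φ a p i * f (sgm S L b i) :=
  wp_apply (TC_good hφ a b p) f i

lemma norm_TC_le {L : ℕ} {φ : XX S → ℂ} (hφ : FN φ) {C : ℝ} (hC0 : 0 ≤ C) (hC : ∀ p, ‖φ p‖ ≤ C)
    (a b : ℕ) (p : XX S) : ‖TC L φ a b p‖ ≤ C :=
  norm_wp_le (TC_good hφ a b p) (norm_wt_le hC0 hC a p)

lemma TC_mul {L : ℕ} {φ ψ : XX S → ℂ} (hφ : FN φ) (hψ : FN ψ) (a b d : ℕ) (hb : b < nz S L) :
    TC L φ a b * TC L ψ b d = TC L (fun p => φ p * ψ p) a d := by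
  funext p
  refine op_ext fun f i => ?_
  rw [Pi.mul_apply, mulA, TC_apply hφ, TC_apply hψ, TC_apply (hφ.mul hψ), sgm_sgm hb]
  unfold wt
  rw [sgm_mod hb, sgm_div hb, if_pos rfl]
  by_cases h : i % nz S L = a
  · rw [if_pos h, if_pos h]
    ring
  · rw [if_neg h, if_neg h]; simp

lemma TC_mul_ne {L : ℕ} {φ ψ : XX S → ℂ} (hφ : FN φ) (hψ : FN ψ) (a b c d : ℕ) (hb : b < nz S L)
    (hbc : b ≠ c) : TC L φ a b * TC L ψ c d = 0 := by
  funext p
  refine op_ext fun f i => ?_
  rw [Pi.mul_apply, mulA, TC_apply hφ, TC_apply hψ]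
  unfold wt
  rw [sgm_mod hb, if_neg hbc, zero_mul, mul_zero]
  rfl

lemma TC_star {L : ℕ} {φ : XX S → ℂ} (hφ : FN φ) {a b : ℕ} (ha : a < nz S L) (hb : b < nz S L) :
    star (TC L φ a b) = TC L (fun p => (starRingEnd ℂ) (φ p)) b a := by
  funext p
  rw [Pi.star_apply]
  refine star_wp (TC_good hφ a b p) (TC_good hφ.conj b a p) ?_ ?_
  · intro i hi
    obtain ⟨h1, h2⟩ := wt_ne hi
    rw [h2]
    refine ⟨?_, ?_⟩
    · unfold wt
      rw [sgm_mod hb, sgm_div hb, if_pos rfl]
    · rw [sgm_sgm hb, ← h1, sgm_self]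
  · intro i hi
    obtain ⟨h1, h2⟩ := wt_ne hi
    rw [h2]
    refine ⟨?_, ?_⟩
    · unfold wt
      rw [sgm_mod ha, sgm_div ha, if_pos rfl]
      simp
    · rw [sgm_sgm ha, ← h1, sgm_self]

lemma TC_zero (L : ℕ) (a b : ℕ) : TC L (fun _ : XX S => 0) a b = 0 := by
  funext p
  refine op_ext fun f i => ?_
  rw [TC_apply (FN.const 0)]
  unfold wt
  rw [ite_self, zero_mul]
  rfl

lemma TC_add {L : ℕ} {φ ψ : XX S → ℂ} (hφ : FN φ) (hψ : FN ψ) (a b : ℕ) :
    TC L φ a b + TC L ψ a b = TC L (fun p => φ p + ψ p) a b := by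
  funext p
  refine op_ext fun f i => ?_
  show TC L φ a b p f i + TC L ψ a b p f i = _
  rw [TC_apply hφ, TC_apply hψ, TC_apply (hφ.add hψ), ← add_mul]
  congr 1
  unfold wt
  by_cases h : i % nz S L = a
  · rw [if_pos h, if_pos h, if_pos h]
  · rw [if_neg h, if_neg h, if_neg h, add_zero]

lemma TC_smul {L : ℕ} {φ : XX S → ℂ} (hφ : FN φ) (c : ℂ) (a b : ℕ) :
    c • TC L φ a b = TC L (fun p => c * φ p) a b := by
  funext p
  refine op_ext fun f i => ?_
  show c * TC L φ a b p f i = _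
  rw [TC_apply hφ, TC_apply ((FN.const c).mul hφ), ← mul_assoc]
  congr 1
  unfold wt
  by_cases h : i % nz S L = a
  · rw [if_pos h, if_pos h]
  · rw [if_neg h, if_neg h, mul_zero]

lemma TC_sum {ι : Type*} (s : Finset ι) (L : ℕ) {φ : ι → XX S → ℂ} (hφ : ∀ i ∈ s, FN (φ i))
    (a b : ℕ) : ∑ x ∈ s, TC L (φ x) a b = TC L (fun p => ∑ x ∈ s, φ x p) a b := by
  classical
  induction s using Finset.induction_on with
  | empty =>
    simp only [Finset.sum_empty]
    exact (TC_zero L a b).symm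
  | insert x s hx ih =>
    rw [Finset.sum_insert hx, ih fun i hi => hφ i (Finset.mem_insert_of_mem hi),
      TC_add (hφ x (Finset.mem_insert_self _ _))
        (FN.sum s fun i hi => hφ i (Finset.mem_insert_of_mem hi))]
    congr 1
    funext p
    rw [Finset.sum_insert hx]

lemma sumF {ι : Type*} (s : Finset ι) (T : ι → FF S) (p : XX S) (f : HH) (i : ℕ) :
    (∑ a ∈ s, T a) p f i = ∑ a ∈ s, T a p f i := by
  classical
  induction s using Finset.induction_on with
  | empty => rfl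
  | insert x s hx ih =>
    rw [Finset.sum_insert hx, Finset.sum_insert hx, ← ih]
    rfl

lemma sum_TC_one (L : ℕ) : ∑ a ∈ Finset.range (nz S L), TC L (fun _ : XX S => 1) a a = 1 := by
  funext p
  refine op_ext fun f i => ?_
  rw [sumF, Finset.sum_eq_single (i % nz S L)]
  · rw [TC_apply (FN.const 1), sgm_self]
    unfold wt
    rw [if_pos rfl, one_mul]
    rfl
  · intro b _ hb
    rw [TC_apply (FN.const 1)]
    unfold wt
    rw [if_neg (fun h => hb h.symm), zero_mul]
  · intro h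
    exact absurd (Finset.mem_range.mpr (Nat.mod_lt _ (nz_pos S L))) h

lemma lt_nz_iff {L m i : ℕ} (hm : L ≤ m) : i < nz S m ↔ i / nz S L < nz S m / nz S L := by
  obtain ⟨c, hc⟩ := nz_dvd S hm
  rw [hc, Nat.mul_div_cancel_left _ (nz_pos S L), Nat.div_lt_iff_lt_mul (nz_pos S L), mul_comm c]

lemma lt_sgm {L m b : ℕ} (hm : L ≤ m) (hb : b < nz S L) (i : ℕ) :
    sgm S L b i < nz S m ↔ i < nz S m := by
  rw [lt_nz_iff hm, sgm_div hb, ← lt_nz_iff hm]

/-- membership in an interval with end points divisible by `nz L` -/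
lemma ge_sgm {L s b : ℕ} (hs : nz S L ∣ s) (hb : b < nz S L) (i : ℕ) :
    s ≤ sgm S L b i ↔ s ≤ i := by
  obtain ⟨c, rfl⟩ := hs
  have key : ∀ j, nz S L * c ≤ j ↔ c ≤ j / nz S L := by
    intro j
    rw [Nat.le_div_iff_mul_le (nz_pos S L), mul_comm]
  rw [key, key, sgm_div hb]

lemma cb_sgm {L m b : ℕ} (hm : L ≤ m) (hb : b < nz S L) (c i : ℕ) :
    cb S m c (sgm S L b i) ↔ cb S m c i := by
  unfold cb
  have h1 : nz S L ∣ c * nz S m := (nz_dvd S hm).mul_left c
  rw [ge_sgm h1 hb, ← not_le, ge_sgm (dvd_add h1 (nz_dvd S hm)) hb, not_le]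

lemma sgm_add {L s b : ℕ} (hs : nz S L ∣ s) (i : ℕ) : sgm S L b (s + i) = s + sgm S L b i := by
  obtain ⟨c, rfl⟩ := hs
  unfold sgm
  rw [Nat.mul_add_div (nz_pos S L)]
  ring

lemma wt_block {L : ℕ} {φ : XX S → ℂ} {a m c : ℕ} (hm : L ≤ m) (hc : c < S.N) (p : XX S) {i : ℕ}
    (hi : i < nz S m) : wt L φ a p (c * nz S m + i) = wt L φ a (tr m c p) i := by
  have hd : nz S L ∣ c * nz S m := (nz_dvd S hm).mul_left c
  unfold wt
  have h1 : (c * nz S m + i) % nz S L = i % nz S L := by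
    obtain ⟨e, he⟩ := hd
    rw [he, Nat.mul_add_mod]
  have h2 : nz S L * ((c * nz S m + i) / nz S L) = c * nz S m + nz S L * (i / nz S L) := by
    have := sgm_add (b := 0) hd i
    unfold sgm at this
    simpa using this
  have h3 : nz S L * (i / nz S L) < nz S m := (Nat.mul_div_le i (nz S L)).trans_lt hi
  rw [h1, h2, DD_block hc h3]

/-- the parity condition for a function -/
def Par2 (a b : ℕ) (φ : XX S → ℂ) : Prop :=
  ∀ k, ∀ p, φ (flip k p) = sk S k a * sk S k b * φ p

/-- signs of indices in different blocks -/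
lemma sk_sgm {L a b k : ℕ} (ha : a < nz S L) (hb : b < nz S L) {i : ℕ} (hi : i / nz S L ≠ 0) :
    sk S k (sgm S L b i) = sk S k (sgm S L a i) := by
  by_cases hk : L ≤ k
  · have h1 : ∀ x, x < nz S L → ((nz S k ≤ sgm S L x i ∧ sgm S L x i < nz S (k + 1)) ↔
        (nz S k ≤ i ∧ i < nz S (k + 1))) := by
      intro x hx
      rw [ge_sgm (nz_dvd S hk) hx, lt_sgm (show L ≤ k + 1 by omega) hx]
    unfold sk
    simp only [h1 a ha, h1 b hb]
  · push Not at hk
    have h2 : ∀ x, ¬ (nz S k ≤ sgm S L x i ∧ sgm S L x i < nz S (k + 1)) := by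
      rintro x ⟨-, h⟩
      have h3 : nz S (k + 1) ≤ nz S L := nz_mono S hk
      have h4 : nz S L * 1 ≤ nz S L * (i / nz S L) :=
        Nat.mul_le_mul_left _ (Nat.one_le_iff_ne_zero.mpr hi)
      unfold sgm at h
      omega
    unfold sk
    rw [if_neg (h2 b), if_neg (h2 a)]

lemma wt_flip {L : ℕ} {φ : XX S → ℂ} {a b : ℕ} (ha : a < nz S L) (hb : b < nz S L)
    (hφ : Par2 a b φ) (k : ℕ) (p : XX S) (i : ℕ) :
    wt L φ a (flip k p) i * sk S k (sgm S L b i) = sk S k i * wt L φ a p i := by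
  by_cases h : i % nz S L = a
  swap
  · unfold wt
    rw [if_neg h, if_neg h]; simp
  have hi : i = sgm S L a i := by rw [← h]; exact sgm_self.symm
  have hwt : ∀ p', wt L φ a p' i = φ (DD (nz S L * (i / nz S L)) p') := fun p' => if_pos h
  rw [hwt, hwt]
  by_cases h0 : i / nz S L = 0
  · have e1 : sgm S L b i = b := by unfold sgm; rw [h0, mul_zero, zero_add]
    have e2 : sk S k i = sk S k a := by
      conv_lhs => rw [hi]
      unfold sgm
      rw [h0, mul_zero, zero_add]
    rw [h0, mul_zero, DD_zero, DD_zero, e1, e2, hφ k]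
    have := sk_mul_self (S := S) k b
    linear_combination (sk S k a * φ p) * this
  · have e1 := sk_sgm (k := k) ha hb h0
    rw [← hi] at e1
    have e2 : nz S L * (i / nz S L) ≠ 0 := Nat.mul_ne_zero (nz_pos S L).ne' h0
    rw [e1, DD_const e2 (P := flip k p) (P' := p) rfl]
    ring

lemma TC_lev {L : ℕ} {φ : XX S → ℂ} (hF : FN φ) {a b : ℕ} (ha : a < nz S L) (hb : b < nz S L)
    (hφ : Par2 a b φ) : Lev S L (TC L φ a b) where
  comm m hm p := by
    refine op_ext fun f i => ?_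
    rw [mulA, mulA, TC_apply hF, PR_apply, PR_apply, TC_apply hF]
    simp only [lt_sgm hm hb]
    ring
  shift m hm c hc p := by
    refine op_ext fun f i => ?_
    rw [mulA, mulA, TC_apply hF, SS_apply, SS_apply, TC_apply hF]
    simp only [cb_sgm hm hb]
    by_cases h : cb S m c i
    · rw [if_pos h, one_mul, one_mul]
      have hd : nz S L ∣ c * nz S m := (nz_dvd S hm).mul_left c
      have h' := h
      unfold cb at h'
      obtain ⟨i', rfl⟩ := Nat.exists_eq_add_of_le h'.1
      rw [wt_block hm hc p (by omega), sgm_add hd, Nat.add_sub_cancel_left,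
        Nat.add_sub_cancel_left]
    · rw [if_neg h]; simp
  shift' m hm c hc p := by
    refine op_ext fun f i => ?_
    rw [mulA, mulA, SSt_apply, TC_apply hF, TC_apply hF, SSt_apply]
    simp only [lt_sgm hm hb]
    by_cases h : i < nz S m
    · rw [if_pos h, one_mul, one_mul]
      have hd : nz S L ∣ c * nz S m := (nz_dvd S hm).mul_left c
      rw [wt_block hm hc p h, sgm_add hd]
    · rw [if_neg h]; simp
  eqv k p := by
    refine op_ext fun f i => ?_
    rw [mulA, mulA, TC_apply hF, gg_apply, gg_apply, TC_apply hF, ← mul_assoc,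
      wt_flip ha hb hφ k, mul_assoc]
  fn i j := by
    have e : ∀ p, ent (TC L φ a b p) i j = wt L φ a p i * (if sgm S L b i = j then 1 else 0) := by
      intro p
      unfold ent
      rw [TC_apply hF, ee_apply]
    by_cases h : i % nz S L = a
    · have e' : (fun p => ent (TC L φ a b p) i j) =
          fun p => φ (DD (nz S L * (i / nz S L)) p) * (if sgm S L b i = j then 1 else 0) := by
        funext p
        rw [e]
        unfold wt
        rw [if_pos h]
      rw [e']
      exact (hF.comp_DD _).mul (FN.const _)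
    · have e' : (fun p => ent (TC L φ a b p) i j) = fun _ => 0 := by
        funext p
        rw [e]
        unfold wt
        rw [if_neg h, zero_mul]
      rw [e']
      exact FN.const 0

/-- the entries in the first block -/
lemma TC_ent {L : ℕ} {φ : XX S → ℂ} (hF : FN φ) {a b : ℕ} (p : XX S) {j : ℕ}
    {i : ℕ} (hi : i < nz S L) :
    ent (TC L φ a b p) i j = if i = a ∧ j = b then φ p else 0 := by
  unfold ent
  rw [TC_apply hF, ee_apply]
  unfold wt sgm
  rw [Nat.mod_eq_of_lt hi, Nat.div_eq_of_lt hi, mul_zero, DD_zero, zero_add]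
  by_cases h1 : i = a
  · by_cases h2 : b = j
    · rw [if_pos h1, if_pos h2, if_pos ⟨h1, h2.symm⟩, mul_one]
    · rw [if_pos h1, if_neg h2, if_neg (fun h : i = a ∧ j = b => h2 h.2.symm), mul_zero]
  · rw [if_neg h1, if_neg (fun h : i = a ∧ j = b => h1 h.1), zero_mul]

/-- a self-similar function is the sum of its entries -/
lemma Lev.expand {l : ℕ} {T : FF S} (h : Lev S l T) :
    T = ∑ i ∈ Finset.range (nz S l), ∑ j ∈ Finset.range (nz S l),
      TC l (fun p => ent (T p) i j) i j := by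
  have hpar : ∀ i j, Par2 i j (fun p => ent (T p) i j) := fun i j k p => h.ent_flip k i j p
  have hL : Lev S l (∑ i ∈ Finset.range (nz S l), ∑ j ∈ Finset.range (nz S l),
      TC l (fun p => ent (T p) i j) i j) :=
    Lev.sum _ fun i hi => Lev.sum _ fun j hj =>
      TC_lev (h.fn i j) (Finset.mem_range.mp hi) (Finset.mem_range.mp hj) (hpar i j)
  have h0 := (h.sub hL).eq_zero (by
    intro p i j hi hj
    rw [Pi.sub_apply, ent_sub, Finset.sum_apply, ent_sum, Finset.sum_eq_single i,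
      Finset.sum_apply, ent_sum, Finset.sum_eq_single j, TC_ent (h.fn i j) p hi, if_pos ⟨rfl, rfl⟩,
      sub_self]
    · intro b _ hb
      rw [TC_ent (h.fn i b) p hi, if_neg (fun h => hb h.2.symm)]
    · intro h; exact absurd (Finset.mem_range.mpr hj) h
    · intro b _ hb
      rw [Finset.sum_apply, ent_sum]
      refine Finset.sum_eq_zero fun x _ => ?_
      rw [TC_ent (h.fn b x) p hi, if_neg (fun h => hb h.1.symm)]
    · intro h; exact absurd (Finset.mem_range.mpr hi) h)
  exact sub_eq_zero.mp h0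

/-! ### coordinates -/

/-- the square of the Euclidean norm of a block -/
def nq (i : ℕ) (p : PT S) : ℝ := ∑ b, (p.val i b) ^ 2

lemma nq_pos (i : ℕ) (p : PT S) : 0 < nq i p := by
  have h1 : ∑ b, |p.val i b| = 1 := p.prop i
  have h2 : ∃ b, p.val i b ≠ 0 := by
    by_contra hcon
    push Not at hcon
    simp [hcon] at h1
  obtain ⟨b, hb⟩ := h2
  exact Finset.sum_pos' (fun b _ => sq_nonneg _) ⟨b, Finset.mem_univ b, by positivity⟩

lemma coord_continuous (i : ℕ) (a : Fin (nn S i + 1)) : Continuous fun p : PT S => p.val i a :=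
  (continuous_apply a).comp ((continuous_apply i).comp PT.continuous_val)

lemma nq_continuous (i : ℕ) : Continuous (nq (S := S) i) := by
  unfold nq
  exact continuous_finsetSum _ fun b _ => (coord_continuous i b).pow 2

/-- normalised coordinates -/
def co (i : ℕ) (a : Fin (nn S i + 1)) (p : PT S) : ℝ := p.val i a / √(nq i p)

lemma co_continuous (i : ℕ) (a : Fin (nn S i + 1)) : Continuous (co i a) := by
  unfold co
  refine (coord_continuous i a).div (nq_continuous i).sqrt ?_
  intro p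
  exact (Real.sqrt_pos.mpr (nq_pos i p)).ne'

lemma co_sum (i : ℕ) (p : PT S) : ∑ a, (co i a p) ^ 2 = 1 := by
  have h := nq_pos i p
  have : ∀ a, (co i a p) ^ 2 = (p.val i a) ^ 2 / nq i p := by
    intro a
    rw [co, div_pow, Real.sq_sqrt h.le]
  simp_rw [this]
  rw [← Finset.sum_div]
  exact div_self h.ne'

lemma nq_flip (i k : ℕ) (p : PT S) : nq i (flp0 k p) = nq i p := by
  unfold nq
  refine Finset.sum_congr rfl fun b _ => ?_
  rw [flp0_val, flp]
  by_cases h : i = k
  · subst h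
    rw [Function.update_self, Pi.neg_apply, neg_sq]
  · rw [Function.update_of_ne h]

lemma co_flip_self (k : ℕ) (a : Fin (nn S k + 1)) (p : PT S) : co k a (flp0 k p) = -co k a p := by
  rw [co, co, nq_flip, flp0_val, flp, Function.update_self, Pi.neg_apply, neg_div]

lemma co_flip_ne {i k : ℕ} (h : i ≠ k) (a : Fin (nn S i + 1)) (p : PT S) :
    co i a (flp0 k p) = co i a p := by
  rw [co, co, nq_flip, flp0_val, flp, Function.update_of_ne h]

/-- functions with the parity of a basis vector -/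
def psi (a c : ℕ) (P : XX S) : ℂ :=
  if a = 0 then (if c = 0 then 1 else 0)
  else if h : c < nn S (lv S a) + 1 then ((co (lv S a) ⟨c, h⟩ P.1 : ℝ) : ℂ) else 0

variable (S) in
/-- the number of indices -/
def kk (a : ℕ) : ℕ := nn S (lv S a) + 1

lemma psi_FN (a c : ℕ) : FN (psi (S := S) a c) := by
  intro g
  unfold psi
  by_cases ha : a = 0
  · simp only [if_pos ha]
    exact continuous_const
  · simp only [if_neg ha]
    by_cases hc : c < nn S (lv S a) + 1
    · simp only [dif_pos hc]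
      exact Complex.continuous_ofReal.comp (co_continuous _ _)
    · simp only [dif_neg hc]
      exact continuous_const

lemma blk_lv {k a : ℕ} (ha : a ≠ 0) : (nz S k ≤ a ∧ a < nz S (k + 1)) ↔ k = lv S a := by
  constructor
  · rintro ⟨h1, h2⟩
    exact (lv_unique S h1 h2).symm
  · rintro rfl
    exact ⟨lv_le S ha, lt_lv S a⟩

lemma sk_zero (k : ℕ) : sk S k 0 = 1 := by
  unfold sk
  rw [if_neg]
  rintro ⟨h, -⟩
  have := nz_pos S k
  omega

lemma psi_flip (a c k : ℕ) (P : XX S) : psi a c (flip k P) = sk S k a * psi a c P := by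
  unfold psi
  by_cases ha : a = 0
  · subst ha
    rw [if_pos rfl, if_pos rfl, sk_zero, one_mul]
  · rw [if_neg ha, if_neg ha]
    unfold sk
    simp only [blk_lv ha]
    by_cases hc : c < nn S (lv S a) + 1
    · rw [dif_pos hc, dif_pos hc]
      by_cases hk : k = lv S a
      · subst hk
        rw [if_pos rfl]
        show ((co _ _ (flp0 _ P.1) : ℝ) : ℂ) = -1 * ((co _ _ P.1 : ℝ) : ℂ)
        rw [co_flip_self]
        push_cast
        ring
      · rw [if_neg hk]
        show ((co _ _ (flp0 _ P.1) : ℝ) : ℂ) = 1 * ((co _ _ P.1 : ℝ) : ℂ)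
        rw [co_flip_ne (fun h => hk h.symm), one_mul]
    · rw [dif_neg hc, dif_neg hc, mul_zero]

lemma psi_conj (a c : ℕ) (P : XX S) : (starRingEnd ℂ) (psi a c P) = psi a c P := by
  unfold psi
  split_ifs
  · exact map_one _
  · exact map_zero _
  · exact Complex.conj_ofReal _
  · exact map_zero _

lemma psi_sum (a : ℕ) (P : XX S) : ∑ c ∈ Finset.range (kk S a), psi a c P * psi a c P = 1 := by
  unfold psi kk
  by_cases ha : a = 0
  · subst ha
    rw [Finset.sum_eq_single 0]
    · simp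
    · intro b _ hb
      simp [hb]
    · intro h
      exact absurd (Finset.mem_range.mpr (Nat.succ_pos _)) h
  · simp only [if_neg ha]
    rw [Finset.sum_range]
    have h1 : ∀ c : Fin (nn S (lv S a) + 1),
        ((if h : (c : ℕ) < nn S (lv S a) + 1 then ((co (lv S a) ⟨c, h⟩ P.1 : ℝ) : ℂ) else 0) *
        (if h : (c : ℕ) < nn S (lv S a) + 1 then ((co (lv S a) ⟨c, h⟩ P.1 : ℝ) : ℂ) else 0)) =
          ((co _ c P.1 ^ 2 : ℝ) : ℂ) := by
      intro c
      rw [dif_pos c.2]
      push_cast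
      ring
    rw [Finset.sum_congr rfl fun c _ => h1 c, ← Complex.ofReal_sum, co_sum]
    simp

end

end Pool.Agent.H252.VR
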