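import Pool.Agent.H252.VR.Alg
import Pool.Agent.H252.VR.Defs

/-!
# Existence and uniqueness of the tracial state, stable finiteness
-/

set_option autoImplicit false

namespace Pool.Agent.H252.VR

open scoped ENNReal
open Pool.Agent.Helper133.BT Pool.Agent.Helper133.BU Filter Topology
open Pool.Agent.Y269.GP (HH wp Good ee wp_apply norm_wp_le op_ext mulA oneA op_ext' star_wp ee_apply
  inner_ee proj_mem)
open Pool.Agent.H252.VR.Defs

noncomputable section

variable {S : Sys}

variable (S) in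
/-- normalised partial traces -/
def avg (L : ℕ) (A : BH) : ℂ := (nz S L : ℂ)⁻¹ * ∑ s ∈ Finset.range (nz S L), ent A s s

lemma nzC (L : ℕ) : (nz S L : ℂ) ≠ 0 := Nat.cast_ne_zero.mpr (nz_pos S L).ne'

lemma avg_add (L : ℕ) (A B : BH) : avg S L (A + B) = avg S L A + avg S L B := by
  unfold avg
  simp only [ent_add]
  rw [Finset.sum_add_distrib, mul_add]

lemma avg_smul (L : ℕ) (c : ℂ) (A : BH) : avg S L (c • A) = c * avg S L A := by
  unfold avg
  simp only [ent_smul]
  rw [← Finset.mul_sum]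
  ring

lemma avg_sub (L : ℕ) (A B : BH) : avg S L (A - B) = avg S L A - avg S L B := by
  have h : A - B = A + (-1 : ℂ) • B := by rw [neg_smul, one_smul, sub_eq_add_neg]
  rw [h, avg_add, avg_smul]
  ring

lemma avg_one (L : ℕ) : avg S L 1 = 1 := by
  unfold avg
  simp only [ent_one, if_true]
  have := nzC (S := S) L
  simp [this]

lemma norm_avg_le (L : ℕ) (A : BH) : ‖avg S L A‖ ≤ ‖A‖ := by
  unfold avg
  have h0 : (0 : ℝ) < nz S L := Nat.cast_pos.mpr (nz_pos S L)
  rw [norm_mul, norm_inv, Complex.norm_natCast]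
  have h1 : ‖∑ s ∈ Finset.range (nz S L), ent A s s‖ ≤ nz S L * ‖A‖ := by
    refine (norm_sum_le _ _).trans ?_
    refine (Finset.sum_le_sum fun s _ => norm_ent_le A s s).trans ?_
    simp
  calc _ ≤ (nz S L : ℝ)⁻¹ * (nz S L * ‖A‖) := by gcongr
    _ = ‖A‖ := by field_simp

lemma avg_star (L : ℕ) (A : BH) : avg S L (star A) = (starRingEnd ℂ) (avg S L A) := by
  unfold avg
  rw [map_mul, map_sum, map_inv₀, Complex.conj_natCast]
  simp only [ent_star]

lemma ent_star_mul (A B : BH) (s : ℕ) : ent (star A * B) s s = inner ℂ (A (ee s)) (B (ee s)) := by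
  unfold ent
  rw [← inner_ee s, mulA, ContinuousLinearMap.star_eq_adjoint,
    ContinuousLinearMap.adjoint_inner_right]

lemma avg_star_mul (L : ℕ) (A : BH) : avg S L (star A * A) =
    (((nz S L : ℝ)⁻¹ * ∑ s ∈ Finset.range (nz S L), ‖A (ee s)‖ ^ 2 : ℝ) : ℂ) := by
  unfold avg
  simp only [ent_star_mul, inner_self_eq_norm_sq_to_K]
  push_cast
  rfl

lemma avg_star_mul_nonneg (L : ℕ) (A : BH) : 0 ≤ (avg S L (star A * A)).re := by
  rw [avg_star_mul, Complex.ofReal_re]
  positivity

lemma avg_star_mul_im (L : ℕ) (A : BH) : (avg S L (star A * A)).im = 0 := by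
  rw [avg_star_mul, Complex.ofReal_im]

lemma avg_mul_le (L : ℕ) (A B : BH) : (avg S L (star (B * A) * (B * A))).re ≤
    ‖B‖ ^ 2 * (avg S L (star A * A)).re := by
  rw [avg_star_mul, avg_star_mul, Complex.ofReal_re, Complex.ofReal_re]
  have h1 : ∑ s ∈ Finset.range (nz S L), ‖(B * A) (ee s)‖ ^ 2 ≤
      ‖B‖ ^ 2 * ∑ s ∈ Finset.range (nz S L), ‖A (ee s)‖ ^ 2 := by
    rw [Finset.mul_sum]
    refine Finset.sum_le_sum fun s _ => ?_
    rw [mulA, ← mul_pow]
    exact pow_le_pow_left₀ (norm_nonneg _) (B.le_opNorm _) 2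
  calc _ ≤ (nz S L : ℝ)⁻¹ * (‖B‖ ^ 2 * ∑ s ∈ Finset.range (nz S L), ‖A (ee s)‖ ^ 2) :=
        mul_le_mul_of_nonneg_left h1 (by positivity)
    _ = _ := by ring

/-- the recursion for the partial traces -/
lemma avg_succ {l : ℕ} {T : FF S} (hT : Lev S l T) {m : ℕ} (hm : l ≤ m) (P : XX S) :
    avg S (m + 1) (T P) = (S.N : ℂ)⁻¹ * ∑ c ∈ Finset.range S.N, avg S m (T (tr m c P)) := by
  unfold avg
  have h1 : ∑ s ∈ Finset.range (nz S (m + 1)), ent (T P) s s =
      ∑ c ∈ Finset.range S.N, ∑ x ∈ Finset.range (nz S m), ent (T (tr m c P)) x x := by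
    have e : nz S (m + 1) = S.N * nz S m := nz_succ S m
    rw [e, Finset.sum_range, ← (finProdFinEquiv (m := S.N) (n := nz S m)).sum_comp,
      Fintype.sum_prod_type, Finset.sum_range]
    refine Finset.sum_congr rfl fun c _ => ?_
    rw [Finset.sum_range]
    refine Finset.sum_congr rfl fun x _ => ?_
    have e2 : ((finProdFinEquiv (c, x) : Fin (S.N * nz S m)) : ℕ) =
        (c : ℕ) * nz S m + (x : ℕ) := by
      simp [finProdFinEquiv, mul_comm, add_comm]
    rw [e2, hT.entry_block hm c.2 P x.2 x.2]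
  rw [h1, ← Finset.mul_sum, ← mul_assoc]
  congr 1
  rw [nz_succ, Nat.cast_mul, mul_inv]

/-- the oscillation of the partial traces decays -/
lemma avg_osc {l : ℕ} {T : FF S} (hT : Lev S l T) {C : ℝ} (hC : ∀ P, ‖T P‖ ≤ C) (k : ℕ)
    (P P' : XX S) : ‖avg S (l + k) (T P) - avg S (l + k) (T P')‖ ≤ 2 * C * ((S.N : ℝ)⁻¹) ^ k := by
  induction k generalizing P P' with
  | zero =>
    rw [pow_zero, mul_one, add_zero, two_mul]
    exact (norm_sub_le _ _).trans (add_le_add ((norm_avg_le _ _).trans (hC P))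
      ((norm_avg_le _ _).trans (hC P')))
  | succ k ih =>
    have hN : 1 ≤ S.N := (N_pos S)
    have h1 : ∀ Q : XX S, ∑ c ∈ Finset.range S.N, avg S (l + k) (T (tr (l + k) c Q)) =
        avg S (l + k) (T Q) +
          ∑ c ∈ Finset.Ico 1 S.N, avg S (l + k) (T (q S (l + k), S.s c Q.2)) := by
      intro Q
      rw [Finset.range_eq_Ico, Finset.sum_eq_sum_Ico_succ_bot (by omega : 0 < S.N), tr_zero]
      congr 1
      refine Finset.sum_congr rfl fun c hc => ?_
      rw [tr_pos _ (by have := (Finset.mem_Ico.mp hc).1; omega)]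
    have h2 := S.bal (fun g => avg S (l + k) (T (q S (l + k), g))) P.2 P'.2
    rw [show l + (k + 1) = l + k + 1 from rfl, avg_succ hT (by omega), avg_succ hT (by omega),
      h1, h1, h2, ← mul_sub, add_sub_add_right_eq_sub, norm_mul, norm_inv, Complex.norm_natCast,
      pow_succ]
    calc (S.N : ℝ)⁻¹ * ‖avg S (l + k) (T P) - avg S (l + k) (T P')‖
        ≤ (S.N : ℝ)⁻¹ * (2 * C * ((S.N : ℝ)⁻¹) ^ k) := by
          have := ih P P'
          gcongr
      _ = _ := by ring

section Ambient

variable {E : Type} [CStarAlgebra E] (M : Amb S E)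

variable (S) in
/-- a base point -/
def P0 : XX S := Classical.arbitrary _

/-- the limit trace -/
def trc (x : E) : ℂ :=
  limUnder (hyperfilter ℕ : Filter ℕ) (fun k => avg S k (M.ev (P0 S) x))

lemma trc_tendsto (x : E) :
    Tendsto (fun k => avg S k (M.ev (P0 S) x)) (hyperfilter ℕ : Filter ℕ)
      (𝓝 (trc M x)) := by
  have h1 : ↑((hyperfilter ℕ).map fun k => avg S k (M.ev (P0 S) x)) ≤
      𝓟 (Metric.closedBall (0 : ℂ) ‖x‖) := by
    rw [Filter.le_principal_iff]
    show _ ∈ Filter.map _ _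
    rw [Filter.mem_map]
    refine Filter.univ_mem' fun k => ?_
    rw [Set.mem_preimage, mem_closedBall_zero_iff]
    exact (norm_avg_le _ _).trans (ev_norm_le M x _)
  obtain ⟨z, -, hz⟩ := (isCompact_closedBall (0 : ℂ) ‖x‖).ultrafilter_le_nhds _ h1
  exact tendsto_nhds_limUnder ⟨z, hz⟩

lemma trc_unique {x : E} {z : ℂ}
    (h : Tendsto (fun k => avg S k (M.ev (P0 S) x)) (hyperfilter ℕ : Filter ℕ) (𝓝 z)) :
    trc M x = z := tendsto_nhds_unique (trc_tendsto M x) h

lemma trc_add (x y : E) : trc M (x + y) = trc M x + trc M y := by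
  refine trc_unique M (((trc_tendsto M x).add (trc_tendsto M y)).congr fun k => ?_)
  rw [map_add, avg_add]

lemma trc_smul (c : ℂ) (x : E) : trc M (c • x) = c * trc M x := by
  refine trc_unique M (((trc_tendsto M x).const_mul c).congr fun k => ?_)
  rw [map_smul, avg_smul]

lemma norm_trc_le (x : E) : ‖trc M x‖ ≤ ‖x‖ := by
  refine le_of_tendsto (trc_tendsto M x).norm (Eventually.of_forall fun k => ?_)
  exact (norm_avg_le _ _).trans (ev_norm_le M x _)

/-- the limit trace as a continuous linear functional -/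
def trL : E →L[ℂ] ℂ :=
  LinearMap.mkContinuous
    { toFun := trc M
      map_add' := trc_add M
      map_smul' := trc_smul M } 1 (fun x => by rw [one_mul]; exact norm_trc_le M x)

lemma trL_apply (x : E) : trL M x = trc M x := rfl

lemma trc_continuous : Continuous (trc M) := (trL M).continuous

lemma trc_sub (x y : E) : trc M (x - y) = trc M x - trc M y := map_sub (trL M) x y

lemma trc_zero : trc M 0 = 0 := map_zero (trL M)

lemma trc_sum {ι : Type*} (s : Finset ι) (f : ι → E) :
    trc M (∑ i ∈ s, f i) = ∑ i ∈ s, trc M (f i) := map_sum (trL M) f s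

lemma trc_one : trc M 1 = 1 := by
  refine trc_unique M (tendsto_const_nhds.congr fun k => ?_)
  rw [map_one, avg_one]

lemma trc_pos (x : E) : 0 ≤ (trc M (star x * x)).re := by
  refine ge_of_tendsto ((Complex.continuous_re.tendsto _).comp (trc_tendsto M (star x * x)))
    (Eventually.of_forall fun k => ?_)
  simp only [Function.comp_apply, map_mul, map_star]
  exact avg_star_mul_nonneg _ _

lemma trc_im (x : E) : (trc M (star x * x)).im = 0 := by
  refine tendsto_nhds_unique
    ((Complex.continuous_im.tendsto _).comp (trc_tendsto M (star x * x)))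
    (tendsto_const_nhds.congr fun k => ?_)
  simp only [Function.comp_apply, map_mul, map_star]
  exact (avg_star_mul_im _ _).symm

lemma trc_mul_le (x y : E) : (trc M (star (y * x) * (y * x))).re ≤
    ‖y‖ ^ 2 * (trc M (star x * x)).re := by
  refine le_of_tendsto_of_tendsto
    ((Complex.continuous_re.tendsto _).comp (trc_tendsto M (star (y * x) * (y * x))))
    (((Complex.continuous_re.tendsto _).comp (trc_tendsto M (star x * x))).const_mul _)
    (Eventually.of_forall fun k => ?_)
  simp only [Function.comp_apply, map_mul, map_star]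
  refine (avg_mul_le _ _ _).trans ?_
  have := avg_star_mul_nonneg (S := S) k (M.ev (P0 S) x)
  gcongr
  exact ev_norm_le M y _

/-- the trace property for self-similar functions -/
lemma avg_comm {l : ℕ} {U T : FF S} (hU : Lev S l U) (hT : Lev S l T) {L : ℕ} (hL : l ≤ L)
    (p : XX S) : avg S L (U p * T p) = avg S L (T p * U p) := by
  unfold avg
  congr 1
  have h1 : ∀ s ∈ Finset.range (nz S L), ent (U p * T p) s s =
      ∑ k ∈ Finset.range (nz S L), ent (U p) s k * ent (T p) k s := fun s hs =>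
    hT.ent_mul hL (U p) p s (Finset.mem_range.mp hs)
  have h2 : ∀ s ∈ Finset.range (nz S L), ent (T p * U p) s s =
      ∑ k ∈ Finset.range (nz S L), ent (T p) s k * ent (U p) k s := fun s hs =>
    hU.ent_mul hL (T p) p s (Finset.mem_range.mp hs)
  rw [Finset.sum_congr rfl h1, Finset.sum_congr rfl h2, Finset.sum_comm]
  exact Finset.sum_congr rfl fun k _ => Finset.sum_congr rfl fun s _ => mul_comm _ _

lemma trc_comm {x y : E} (hx : x ∈ A0 M) (hy : y ∈ A0 M) : trc M (x * y) = trc M (y * x) := by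
  have key : ∀ x ∈ L0 M, ∀ y ∈ L0 M, trc M (x * y) = trc M (y * x) := by
    rintro x ⟨l, hl⟩ y ⟨l', hl'⟩
    refine trc_unique M ((trc_tendsto M (y * x)).congr' ?_)
    have h1 : ∀ᶠ k in (hyperfilter ℕ : Filter ℕ), max l l' ≤ k :=
      Nat.hyperfilter_le_atTop (eventually_ge_atTop (max l l'))
    filter_upwards [h1] with k hk
    rw [map_mul, map_mul]
    exact (avg_comm (hl.mono (le_max_left _ _)) (hl'.mono (le_max_right _ _)) hk (P0 S)).symm
  have key2 : ∀ y ∈ L0 M, ∀ x ∈ A0 M, trc M (x * y) = trc M (y * x) := by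
    intro y hy x hx
    have hcl : IsClosed {x : E | trc M (x * y) = trc M (y * x)} :=
      isClosed_eq ((trc_continuous M).comp (continuous_mul_const y))
        ((trc_continuous M).comp (continuous_const_mul y))
    exact closure_minimal (fun z hz => key z hz y hy) hcl hx
  have hcl : IsClosed {y : E | trc M (x * y) = trc M (y * x)} :=
    isClosed_eq ((trc_continuous M).comp (continuous_const_mul x))
      ((trc_continuous M).comp (continuous_mul_const x))
  exact closure_minimal (fun z hz => key2 z hz x hx) hcl hy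

/-- the tracial state -/
def tau : ↥(A0 M) →ₗ[ℂ] ℂ where
  toFun x := trc M (x : E)
  map_add' x y := trc_add M (x : E) (y : E)
  map_smul' c x := trc_smul M c (x : E)

lemma tau_isTracialState : IsTracialState (tau M) where
  nonneg x := ⟨trc_pos M (x : E), trc_im M (x : E)⟩
  comm x y := trc_comm M x.2 y.2
  map_one := trc_one M

/-! ### stable finiteness -/

/-- the square of the trace seminorm -/
def tt (x : ↥(A0 M)) : ℝ := (trc M (star (x : E) * (x : E))).re

lemma tt_nonneg (x : ↥(A0 M)) : 0 ≤ tt M x := trc_pos M _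

lemma tt_star (x : ↥(A0 M)) : tt M (star x) = tt M x := by
  unfold tt
  have h1 : ((star x : ↥(A0 M)) : E) = star (x : E) := rfl
  rw [h1, star_star]
  rw [trc_comm M x.2 (star_mem x.2)]

lemma tt_mul_le (y x : ↥(A0 M)) : tt M (y * x) ≤ ‖(y : E)‖ ^ 2 * tt M x := by
  unfold tt
  have h1 : ((y * x : ↥(A0 M)) : E) = (y : E) * (x : E) := rfl
  rw [h1]
  exact trc_mul_le M _ _

lemma tt_add_sub (x y : ↥(A0 M)) : tt M (x + y) + tt M (x - y) = 2 * tt M x + 2 * tt M y := by
  unfold tt
  have h1 : ((x + y : ↥(A0 M)) : E) = (x : E) + (y : E) := rfl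
  have h2 : ((x - y : ↥(A0 M)) : E) = (x : E) - (y : E) := rfl
  rw [h1, h2, ← Complex.add_re, ← trc_add]
  have h3 : star ((x : E) + (y : E)) * ((x : E) + (y : E)) +
      star ((x : E) - (y : E)) * ((x : E) - (y : E)) =
      (2 : ℂ) • (star (x : E) * (x : E)) + (2 : ℂ) • (star (y : E) * (y : E)) := by
    rw [star_add, star_sub, two_smul, two_smul]
    noncomm_ring
  rw [h3, trc_add, trc_smul, trc_smul, Complex.add_re]
  simp

lemma tt_neg (x : ↥(A0 M)) : tt M (-x) = tt M x := by
  unfold tt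
  have h1 : ((-x : ↥(A0 M)) : E) = -(x : E) := rfl
  rw [h1, star_neg, neg_mul_neg]

lemma tt_zero : tt M 0 = 0 := by
  unfold tt
  have h1 : ((0 : ↥(A0 M)) : E) = 0 := rfl
  rw [h1, mul_zero, trc_zero]
  rfl

lemma tt_one : tt M 1 = 1 := by
  unfold tt
  have h1 : ((1 : ↥(A0 M)) : E) = 1 := rfl
  rw [h1, mul_one, star_one, trc_one]
  rfl

lemma tt_mul_left {x y : ↥(A0 M)} (hy : tt M y = 0) : tt M (x * y) = 0 := by
  refine le_antisymm ?_ (tt_nonneg M _)
  refine (tt_mul_le M x y).trans ?_
  rw [hy, mul_zero]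

lemma tt_mul_right {x y : ↥(A0 M)} (hx : tt M x = 0) : tt M (x * y) = 0 := by
  rw [← tt_star, star_mul]
  apply tt_mul_left
  rwa [tt_star]

/-- the null ideal of the trace -/
def NI : TwoSidedIdeal ↥(A0 M) :=
  TwoSidedIdeal.mk' {x : ↥(A0 M) | tt M x = 0} (tt_zero M)
    (fun {x y} hx hy => by
      have h1 := tt_add_sub M x y
      have h2 := tt_nonneg M (x + y)
      have h3 := tt_nonneg M (x - y)
      have hx' : tt M x = 0 := hx
      have hy' : tt M y = 0 := hy
      show tt M (x + y) = 0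
      rw [hx', hy'] at h1
      linarith)
    (fun {x} hx => by
      show tt M (-x) = 0
      rw [tt_neg]
      exact hx)
    (fun {x y} hy => tt_mul_left M hy)
    (fun {x y} hx => tt_mul_right M hx)

/-- the trace is faithful -/
theorem faithful {x : ↥(A0 M)} (hx : tt M x = 0) : x = 0 := by
  by_contra h
  have hx' : x ∈ NI M := by
    unfold NI
    rw [TwoSidedIdeal.mem_mk']
    exact hx
  have h1 := ideal_eq_top M (NI M) hx' h
  unfold NI at h1
  rw [TwoSidedIdeal.mem_mk'] at h1
  have h2 : tt M 1 = 0 := h1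
  rw [tt_one] at h2
  exact one_ne_zero h2

/-- the trace of a matrix -/
def tm {n : ℕ} (w : Matrix (Fin n) (Fin n) ↥(A0 M)) : ℂ := ∑ i, trc M (w i i : E)

lemma coe_sum' {ι : Type*} (s : Finset ι) (f : ι → ↥(A0 M)) :
    ((∑ i ∈ s, f i : ↥(A0 M)) : E) = ∑ i ∈ s, (f i : E) :=
  AddSubmonoidClass.coe_finsetSum f s

lemma tm_mul {n : ℕ} (v w : Matrix (Fin n) (Fin n) ↥(A0 M)) :
    tm M (v * w) = ∑ i, ∑ j, trc M ((v i j : E) * (w j i : E)) := by
  unfold tm
  refine Finset.sum_congr rfl fun i _ => ?_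
  rw [Matrix.mul_apply, coe_sum', trc_sum]
  rfl

lemma tm_comm {n : ℕ} (v w : Matrix (Fin n) (Fin n) ↥(A0 M)) : tm M (v * w) = tm M (w * v) := by
  rw [tm_mul, tm_mul, Finset.sum_comm]
  refine Finset.sum_congr rfl fun i _ => Finset.sum_congr rfl fun j _ => ?_
  exact trc_comm M (v j i).2 (w i j).2

lemma tm_sub {n : ℕ} (v w : Matrix (Fin n) (Fin n) ↥(A0 M)) : tm M (v - w) = tm M v - tm M w := by
  unfold tm
  rw [← Finset.sum_sub_distrib]
  refine Finset.sum_congr rfl fun i _ => ?_
  rw [Matrix.sub_apply]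
  exact trc_sub M _ _

lemma tm_star_mul {n : ℕ} (v : Matrix (Fin n) (Fin n) ↥(A0 M)) :
    (tm M (star v * v)).re = ∑ i, ∑ j, tt M (v j i) := by
  rw [tm_mul, Complex.re_sum]
  refine Finset.sum_congr rfl fun i _ => ?_
  rw [Complex.re_sum]
  refine Finset.sum_congr rfl fun j _ => ?_
  rfl

theorem stably_finite : StablyFinite ↥(A0 M) := by
  intro n v hv
  set e : Matrix (Fin n) (Fin n) ↥(A0 M) := 1 - v * star v with he
  have h1 : star e * e = e := by
    have h2 : star e = e := by
      rw [he, star_sub, star_mul, star_star, star_one]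
    rw [h2, he]
    have h3 : v * star v * (v * star v) = v * star v := by
      calc v * star v * (v * star v) = v * (star v * v) * star v := by
            simp only [mul_assoc]
        _ = v * star v := by rw [hv, mul_one]
    rw [mul_sub, sub_mul, sub_mul, h3]
    simp
  have h4 : tm M e = 0 := by
    rw [he, tm_sub, tm_comm, hv, sub_self]
  have h5 : ∑ i, ∑ j, tt M (e j i) = 0 := by
    rw [← tm_star_mul, h1, h4]
    rfl
  have h6 : e = 0 := by
    ext1 j i
    apply faithful M
    have h7 := (Finset.sum_eq_zero_iff_of_nonneg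
      (fun i _ => Finset.sum_nonneg fun j _ => tt_nonneg M (e j i))).mp h5 i (Finset.mem_univ _)
    exact (Finset.sum_eq_zero_iff_of_nonneg (fun j _ => tt_nonneg M (e j i))).mp h7 j
      (Finset.mem_univ _)
  exact (sub_eq_zero.mp (he.symm.trans h6)).symm

end Ambient

end

end Pool.Agent.H252.VR
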