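import Pool.Agent.H252.VR.Trace

/-!
# Uniqueness of the tracial state
-/

set_option autoImplicit false

namespace Pool.Agent.H252.VR

open scoped ENNReal
open Pool.Agent.Helper133.BT Pool.Agent.Helper133.BU Filter Topology
open Pool.Agent.Y269.GP (HH wp Good ee wp_apply norm_wp_le op_ext mulA oneA op_ext' star_wp ee_apply
  inner_ee proj_mem)
open Pool.Agent.H252.VR.Defs

noncomputable section

variable {S : Sys}

lemma par_even {φ : XX S → ℂ} (h : ∀ k P, φ (flip k P) = φ P) (a : ℕ) : Par2 a a φ := by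
  intro k P
  rw [h, sk_mul_self, one_mul]

lemma onef_even (k : ℕ) (P : XX S) : onef (flip k P) = onef P := rfl

section Ambient

variable {E : Type} [CStarAlgebra E] (M : Amb S E)

/-- an element with one nonzero entry in the first block -/
def tc {L : ℕ} {φ : XX S → ℂ} (hF : FN φ) {a b : ℕ} (ha : a < nz S L) (hb : b < nz S L)
    (hφ : Par2 a b φ) : ↥(A0 M) := el M (TC_lev hF ha hb hφ)

lemma toC_tc {L : ℕ} {φ : XX S → ℂ} (hF : FN φ) {a b : ℕ} (ha : a < nz S L) (hb : b < nz S L)
    (hφ : Par2 a b φ) : M.toC (tc M hF ha hb hφ : E) = TC L φ a b := toC_el M _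

lemma ext_toC {x y : ↥(A0 M)} (h : M.toC (x : E) = M.toC (y : E)) : x = y :=
  Subtype.ext (toC_inj M h)

lemma tc_mul {L : ℕ} {φ ψ χ : XX S → ℂ} (hF : FN φ) (hG : FN ψ) (hH : FN χ) {a b d : ℕ}
    (ha : a < nz S L) (hb : b < nz S L) (hd : d < nz S L) (hφ : Par2 a b φ) (hψ : Par2 b d ψ)
    (hχ : Par2 a d χ) (h : ∀ P, φ P * ψ P = χ P) :
    tc M hF ha hb hφ * tc M hG hb hd hψ = tc M hH ha hd hχ := by
  apply ext_toC
  show M.toC ((tc M hF ha hb hφ : E) * (tc M hG hb hd hψ : E)) = _
  rw [toC_mul, toC_tc, toC_tc, toC_tc, TC_mul hF hG _ _ _ hb]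
  congr 1
  funext P
  exact h P

variable {τ : ↥(A0 M) →ₗ[ℂ] ℂ} (hτ : IsTracialState τ)

include hτ in
/-- off-diagonal elements have trace zero -/
lemma tau_off {L : ℕ} {φ : XX S → ℂ} (hF : FN φ) {a b : ℕ} (ha : a < nz S L) (hb : b < nz S L)
    (hφ : Par2 a b φ) (hab : a ≠ b) : τ (tc M hF ha hb hφ) = 0 := by
  have h1 : tc M (onef_FN (S := S)) ha ha (par_even onef_even a) * tc M hF ha hb hφ =
      tc M hF ha hb hφ :=
    tc_mul M _ _ _ _ _ _ _ _ _ fun P => one_mul _
  have h2 : tc M hF ha hb hφ * tc M (onef_FN (S := S)) ha ha (par_even onef_even a) = 0 := by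
    apply ext_toC
    show M.toC ((tc M hF ha hb hφ : E) * (tc M onef_FN ha ha _ : E)) = M.toC ((0 : ↥(A0 M)) : E)
    rw [toC_mul, toC_tc, toC_tc, TC_mul_ne hF onef_FN _ _ _ _ hb (fun h => hab h.symm)]
    exact (toC_zero M).symm
  rw [← h1, hτ.comm, h2, map_zero]

/-- an even function times a matrix unit on the diagonal is a sum of products -/
lemma tc_diag {L : ℕ} {φ : XX S → ℂ} (hF : FN φ) (hφ : ∀ k P, φ (flip k P) = φ P) {a b : ℕ}
    (ha : a < nz S L) (hb : b < nz S L) :
    tc M hF ha ha (par_even hφ a) = ∑ c ∈ Finset.range (kk S a), ∑ c' ∈ Finset.range (kk S b),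
      tc M (((psi_FN a c).mul (psi_FN b c')).mul hF) ha hb (fun k P => by
        have := psi_par a b c c' k P
        simp only at this ⊢
        rw [this, hφ]; ring) *
      tc M ((psi_FN b c').mul (psi_FN a c)) hb ha (psi_par b a c' c) := by
  apply ext_toC
  rw [toC_tc, coe_sum', toC_sum]
  have h1 : ∀ c ∈ Finset.range (kk S a), M.toC ((∑ c' ∈ Finset.range (kk S b),
      tc M (((psi_FN a c).mul (psi_FN b c')).mul hF) ha hb (fun k P => by
        have := psi_par a b c c' k P
        simp only at this ⊢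
        rw [this, hφ]; ring) *
      tc M ((psi_FN b c').mul (psi_FN a c)) hb ha (psi_par b a c' c) : ↥(A0 M)) : E) =
      TC L (fun P => φ P * (psi a c P * psi a c P)) a a := by
    intro c _
    rw [coe_sum', toC_sum]
    have h2 : ∀ c' ∈ Finset.range (kk S b), M.toC
        ((tc M (((psi_FN a c).mul (psi_FN b c')).mul hF) ha hb (fun k P => by
          have := psi_par a b c c' k P
          simp only at this ⊢
          rw [this, hφ]; ring) *
        tc M ((psi_FN b c').mul (psi_FN a c)) hb ha (psi_par b a c' c) : ↥(A0 M)) : E) =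
        TC L (fun P => φ P * (psi a c P * psi a c P) * (psi b c' P * psi b c' P)) a a := by
      intro c' _
      show M.toC ((tc M _ ha hb _ : E) * (tc M _ hb ha _ : E)) = _
      rw [toC_mul, toC_tc, toC_tc, TC_mul (((psi_FN a c).mul (psi_FN b c')).mul hF)
        ((psi_FN b c').mul (psi_FN a c)) _ _ _ hb]
      congr 1
      funext P
      ring
    rw [Finset.sum_congr rfl h2, TC_sum _ _ fun c' _ =>
      (hF.mul ((psi_FN a c).mul (psi_FN a c))).mul ((psi_FN b c').mul (psi_FN b c'))]
    congr 1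
    funext P
    rw [← Finset.mul_sum, psi_sum, mul_one]
  rw [Finset.sum_congr rfl h1, TC_sum _ _ fun c _ => hF.mul ((psi_FN a c).mul (psi_FN a c))]
  congr 1
  funext P
  rw [← Finset.mul_sum, psi_sum, mul_one]

/-- the same sum in the other order -/
lemma tc_diag' {L : ℕ} {φ : XX S → ℂ} (hF : FN φ) (hφ : ∀ k P, φ (flip k P) = φ P) {a b : ℕ}
    (ha : a < nz S L) (hb : b < nz S L) :
    tc M hF hb hb (par_even hφ b) = ∑ c ∈ Finset.range (kk S a), ∑ c' ∈ Finset.range (kk S b),
      tc M ((psi_FN b c').mul (psi_FN a c)) hb ha (psi_par b a c' c) *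
      tc M (((psi_FN a c).mul (psi_FN b c')).mul hF) ha hb (fun k P => by
        have := psi_par a b c c' k P
        simp only at this ⊢
        rw [this, hφ]; ring) := by
  apply ext_toC
  rw [toC_tc, coe_sum', toC_sum]
  have h1 : ∀ c ∈ Finset.range (kk S a), M.toC ((∑ c' ∈ Finset.range (kk S b),
      tc M ((psi_FN b c').mul (psi_FN a c)) hb ha (psi_par b a c' c) *
      tc M (((psi_FN a c).mul (psi_FN b c')).mul hF) ha hb (fun k P => by
        have := psi_par a b c c' k P
        simp only at this ⊢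
        rw [this, hφ]; ring) : ↥(A0 M)) : E) =
      TC L (fun P => φ P * (psi a c P * psi a c P)) b b := by
    intro c _
    rw [coe_sum', toC_sum]
    have h2 : ∀ c' ∈ Finset.range (kk S b), M.toC
        ((tc M ((psi_FN b c').mul (psi_FN a c)) hb ha (psi_par b a c' c) *
          tc M (((psi_FN a c).mul (psi_FN b c')).mul hF) ha hb (fun k P => by
          have := psi_par a b c c' k P
          simp only at this ⊢
          rw [this, hφ]; ring) : ↥(A0 M)) : E) =
        TC L (fun P => φ P * (psi a c P * psi a c P) * (psi b c' P * psi b c' P)) b b := by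
      intro c' _
      show M.toC ((tc M _ hb ha _ : E) * (tc M _ ha hb _ : E)) = _
      rw [toC_mul, toC_tc, toC_tc, TC_mul ((psi_FN b c').mul (psi_FN a c))
        (((psi_FN a c).mul (psi_FN b c')).mul hF) _ _ _ ha]
      congr 1
      funext P
      ring
    rw [Finset.sum_congr rfl h2, TC_sum _ _ fun c' _ =>
      (hF.mul ((psi_FN a c).mul (psi_FN a c))).mul ((psi_FN b c').mul (psi_FN b c'))]
    congr 1
    funext P
    rw [← Finset.mul_sum, psi_sum, mul_one]
  rw [Finset.sum_congr rfl h1, TC_sum _ _ fun c _ => hF.mul ((psi_FN a c).mul (psi_FN a c))]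
  congr 1
  funext P
  rw [← Finset.mul_sum, psi_sum, mul_one]

include hτ in
/-- the trace does not depend on the diagonal entry -/
lemma tau_diag {L : ℕ} {φ : XX S → ℂ} (hF : FN φ) (hφ : ∀ k P, φ (flip k P) = φ P) {a b : ℕ}
    (ha : a < nz S L) (hb : b < nz S L) :
    τ (tc M hF ha ha (par_even hφ a)) = τ (tc M hF hb hb (par_even hφ b)) := by
  rw [tc_diag M hF hφ ha hb, tc_diag' M hF hφ ha hb, map_sum, map_sum]
  refine Finset.sum_congr rfl fun c _ => ?_
  rw [map_sum, map_sum]
  exact Finset.sum_congr rfl fun c' _ => hτ.comm _ _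

/-- the unnormalised partial trace as a function -/
def trf (m : ℕ) (T : FF S) : XX S → ℂ := fun P => ∑ s ∈ Finset.range (nz S m), ent (T P) s s

lemma trf_FN {l : ℕ} {T : FF S} (hT : Lev S l T) (m : ℕ) : FN (trf m T) :=
  FN.sum _ fun i _ => hT.fn i i

lemma trf_even {l : ℕ} {T : FF S} (hT : Lev S l T) (m k : ℕ) (P : XX S) :
    trf m T (flip k P) = trf m T P := by
  unfold trf
  refine Finset.sum_congr rfl fun s _ => ?_
  rw [hT.ent_flip, sk_mul_self, one_mul]

include hτ in
/-- the trace of an element of level `m` in terms of the partial traces -/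
lemma tau_lev {m : ℕ} {T : FF S} (hT : Lev S m T) :
    τ (el M hT) = τ (tc M (trf_FN hT m) (nz_pos S m) (nz_pos S m)
      (par_even (trf_even hT m) 0)) := by
  have hpar : ∀ i j, Par2 i j (fun p => ent (T p) i j) := fun i j k p => hT.ent_flip k i j p
  have heven : ∀ i, ∀ k P, (fun p => ent (T p) i i) (flip k P) = (fun p => ent (T p) i i) P := by
    intro i k P
    simp only
    rw [hT.ent_flip, sk_mul_self, one_mul]
  have h1 : el M hT = ∑ i : Fin (nz S m), ∑ j : Fin (nz S m),
      tc M (hT.fn i j) i.2 j.2 (hpar i j) := by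
    apply ext_toC
    rw [toC_el, coe_sum', toC_sum]
    conv_lhs => rw [hT.expand]
    rw [Finset.sum_range]
    refine Finset.sum_congr rfl fun i _ => ?_
    rw [coe_sum', toC_sum, Finset.sum_range]
    exact Finset.sum_congr rfl fun j _ => (toC_tc M _ _ _ _).symm
  have h2 : ∀ i : Fin (nz S m), τ (∑ j : Fin (nz S m), tc M (hT.fn i j) i.2 j.2 (hpar i j)) =
      τ (tc M (hT.fn i i) (nz_pos S m) (nz_pos S m) (par_even (heven i) 0)) := by
    intro i
    rw [map_sum, Finset.sum_eq_single i]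
    · exact tau_diag M hτ (hT.fn i i) (heven i) i.2 (nz_pos S m)
    · intro j _ hj
      exact tau_off M hτ _ _ _ _ (fun h => hj (Fin.ext h.symm))
    · intro h; exact absurd (Finset.mem_univ _) h
  rw [h1, map_sum, Finset.sum_congr rfl fun i _ => h2 i, ← map_sum]
  congr 1
  apply ext_toC
  rw [coe_sum', toC_sum, toC_tc, Finset.sum_congr rfl fun i _ => toC_tc M _ _ _ _,
    TC_sum _ _ fun (i : Fin (nz S m)) _ => hT.fn i i]
  congr 1
  funext P
  unfold trf
  rw [Finset.sum_range]

include hτ in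
/-- the trace of the first matrix unit -/
lemma tau_e00 (m : ℕ) : (nz S m : ℂ) * τ (tc M (onef_FN (S := S)) (nz_pos S m) (nz_pos S m)
    (par_even onef_even 0)) = 1 := by
  have h1 := tau_lev M hτ (Lev.one (S := S) m)
  have h2 : el M (Lev.one (S := S) m) = 1 := by
    apply ext_toC
    rw [toC_el]
    exact (toC_one M).symm
  rw [h2, hτ.map_one] at h1
  rw [h1, ← smul_eq_mul, ← map_smul]
  congr 1
  apply ext_toC
  show M.toC ((nz S m : ℂ) • (tc M onef_FN _ _ _ : E)) = _
  rw [toC_smul, toC_tc, toC_tc, TC_smul onef_FN]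
  congr 1
  funext P
  unfold trf onef
  simp [ent_one]

include hτ in
/-- positivity of the functional `f ↦ τ(f e_00)` on nonnegative even functions -/
lemma tau_fpos (m : ℕ) {f : XX S → ℝ} (hf : ∀ g, Continuous fun p => f (p, g))
    (he : ∀ k P, f (flip k P) = f P) (h0 : ∀ P, 0 ≤ f P) :
    0 ≤ (τ (tc M (L := m) (φ := fun P => (f P : ℂ)) (fun g => Complex.continuous_ofReal.comp (hf g))
      (nz_pos S m) (nz_pos S m) (par_even (fun k P => by simp only [he]) 0))).re ∧
    (τ (tc M (L := m) (φ := fun P => (f P : ℂ)) (fun g => Complex.continuous_ofReal.comp (hf g))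
      (nz_pos S m) (nz_pos S m) (par_even (fun k P => by simp only [he]) 0))).im = 0 := by
  have hs : FN (fun P : XX S => ((√(f P) : ℝ) : ℂ)) :=
    fun g => Complex.continuous_ofReal.comp (hf g).sqrt
  have hse : ∀ k (P : XX S), ((√(f (flip k P)) : ℝ) : ℂ) = ((√(f P) : ℝ) : ℂ) := by
    intro k P; rw [he]
  set x := tc M (L := m) hs (nz_pos S m) (nz_pos S m) (par_even hse 0) with hx
  have h1 : star x * x = tc M (L := m) (φ := fun P => (f P : ℂ))
      (fun g => Complex.continuous_ofReal.comp (hf g))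
      (nz_pos S m) (nz_pos S m) (par_even (fun k P => by simp only [he]) 0) := by
    apply ext_toC
    show M.toC (star (x : E) * (x : E)) = _
    rw [toC_mul, toC_star, hx, toC_tc, toC_tc, TC_star hs (nz_pos S m) (nz_pos S m),
      TC_mul hs.conj hs _ _ _ (nz_pos S m)]
    congr 1
    funext P
    rw [Complex.conj_ofReal, ← Complex.ofReal_mul, Real.mul_self_sqrt (h0 P)]
  rw [← h1]
  exact hτ.nonneg x

include hτ in
/-- the bound for functions -/
lemma tau_fbound (m : ℕ) {f : XX S → ℂ} (hf : FN f)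
    (he : ∀ k P, f (flip k P) = f P) {C : ℝ} (hC : ∀ P, ‖f P‖ ≤ C) :
    ‖τ (tc M (L := m) hf (nz_pos S m) (nz_pos S m) (par_even he 0))‖ ≤
      2 * C * (nz S m : ℝ)⁻¹ := by
  set e := tc M (L := m) (onef_FN (S := S)) (nz_pos S m) (nz_pos S m) (par_even onef_even 0)
    with hedef
  have hC0 : 0 ≤ C := by
    obtain ⟨P⟩ : Nonempty (XX S) := inferInstance
    exact (norm_nonneg _).trans (hC P)
  have hte : τ e = ((nz S m : ℝ)⁻¹ : ℝ) := by
    have h1 := tau_e00 M hτ m
    rw [← hedef] at h1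
    push_cast
    exact (eq_inv_of_mul_eq_one_right h1)
  -- the real case
  have key : ∀ (h : XX S → ℝ) (hh : ∀ g, Continuous fun p => h (p, g))
      (hhe : ∀ k P, h (flip k P) = h P), (∀ P, |h P| ≤ C) →
      ‖τ (tc M (L := m) (φ := fun P => (h P : ℂ))
        (fun g => Complex.continuous_ofReal.comp (hh g)) (nz_pos S m) (nz_pos S m)
        (par_even (fun k P => by simp only [hhe]) 0))‖ ≤ C * (nz S m : ℝ)⁻¹ := by
    intro h hh hhe hb
    set y := tc M (L := m) (φ := fun P => (h P : ℂ))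
        (fun g => Complex.continuous_ofReal.comp (hh g)) (nz_pos S m) (nz_pos S m)
        (par_even (fun k P => by simp only [hhe]) 0) with hy
    have h1 := tau_fpos M hτ m (f := fun P => C + h P) (fun g => continuous_const.add (hh g))
      (fun k P => by rw [hhe]) (fun P => by have := abs_le.mp (hb P); linarith)
    have h2 := tau_fpos M hτ m (f := fun P => C - h P) (fun g => continuous_const.sub (hh g))
      (fun k P => by rw [hhe]) (fun P => by have := abs_le.mp (hb P); linarith)
    have e1 : tc M (L := m) (φ := fun P => ((C + h P : ℝ) : ℂ))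
        (fun g => Complex.continuous_ofReal.comp (continuous_const.add (hh g)))
        (nz_pos S m) (nz_pos S m) (par_even (fun k P => by simp only [hhe]) 0) =
        (C : ℂ) • e + y := by
      apply ext_toC
      show _ = M.toC ((C : ℂ) • (e : E) + (y : E))
      rw [toC_add, toC_smul, hedef, hy, toC_tc, toC_tc, toC_tc, TC_smul onef_FN, TC_add
        ((FN.const _).mul onef_FN) (fun g => Complex.continuous_ofReal.comp (hh g))]
      congr 1
      funext P
      unfold onef
      push_cast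
      ring
    have e2 : tc M (L := m) (φ := fun P => ((C - h P : ℝ) : ℂ))
        (fun g => Complex.continuous_ofReal.comp (continuous_const.sub (hh g)))
        (nz_pos S m) (nz_pos S m) (par_even (fun k P => by simp only [hhe]) 0) =
        (C : ℂ) • e + (-1 : ℂ) • y := by
      apply ext_toC
      show _ = M.toC ((C : ℂ) • (e : E) + (-1 : ℂ) • (y : E))
      rw [toC_add, toC_smul, toC_smul, hedef, hy, toC_tc, toC_tc, toC_tc, TC_smul onef_FN,
        TC_smul (fun g => Complex.continuous_ofReal.comp (hh g)), TC_add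
        ((FN.const _).mul onef_FN)
        ((FN.const _).mul (fun g => Complex.continuous_ofReal.comp (hh g)))]
      congr 1
      funext P
      unfold onef
      push_cast
      ring
    rw [e1, map_add, map_smul, hte] at h1
    rw [e2, map_add, map_smul, map_smul, hte] at h2
    simp only [smul_eq_mul, Complex.add_re, Complex.add_im, ← Complex.ofReal_mul,
      Complex.ofReal_re, Complex.ofReal_im, zero_add, neg_mul, one_mul, Complex.neg_re,
      Complex.neg_im] at h1 h2
    have h3 : τ y = ((τ y).re : ℂ) := by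
      apply Complex.ext
      · simp
      · rw [Complex.ofReal_im]; exact h1.2
    rw [h3, Complex.norm_real, Real.norm_eq_abs, abs_le]
    constructor <;> linarith [h1.1, h2.1]
  -- decompose
  have hre : ∀ g, Continuous fun p : PT S => (f (p, g)).re :=
    fun g => Complex.continuous_re.comp (hf g)
  have him : ∀ g, Continuous fun p : PT S => (f (p, g)).im :=
    fun g => Complex.continuous_im.comp (hf g)
  have k1 := key (fun P => (f P).re) hre (fun k P => by rw [he])
    (fun P => (Complex.abs_re_le_norm _).trans (hC P))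
  have k2 := key (fun P => (f P).im) him (fun k P => by rw [he])
    (fun P => (Complex.abs_im_le_norm _).trans (hC P))
  set y1 := tc M (L := m) (φ := fun P => ((f P).re : ℂ))
        (fun g => Complex.continuous_ofReal.comp (hre g)) (nz_pos S m) (nz_pos S m)
        (par_even (fun k P => by simp only [he]) 0) with hy1
  set y2 := tc M (L := m) (φ := fun P => ((f P).im : ℂ))
        (fun g => Complex.continuous_ofReal.comp (him g)) (nz_pos S m) (nz_pos S m)
        (par_even (fun k P => by simp only [he]) 0) with hy2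
  have e3 : tc M (L := m) hf (nz_pos S m) (nz_pos S m) (par_even he 0) =
      y1 + Complex.I • y2 := by
    apply ext_toC
    show _ = M.toC ((y1 : E) + Complex.I • (y2 : E))
    rw [toC_add, toC_smul, hy1, hy2, toC_tc, toC_tc, toC_tc,
      TC_smul (fun g => Complex.continuous_ofReal.comp (him g)),
      TC_add (fun g => Complex.continuous_ofReal.comp (hre g))
        ((FN.const _).mul (fun g => Complex.continuous_ofReal.comp (him g)))]
    congr 1
    funext P
    rw [mul_comm]
    exact (Complex.re_add_im _).symm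
  rw [e3, map_add, map_smul]
  calc ‖τ y1 + Complex.I • τ y2‖ ≤ ‖τ y1‖ + ‖Complex.I • τ y2‖ := norm_add_le _ _
    _ = ‖τ y1‖ + ‖τ y2‖ := by rw [smul_eq_mul, norm_mul, Complex.norm_I, one_mul]
    _ ≤ C * (nz S m : ℝ)⁻¹ + C * (nz S m : ℝ)⁻¹ := add_le_add k1 k2
    _ = _ := by ring

include hτ in
/-- the trace is close to the partial traces -/
lemma tau_close {l : ℕ} {T : FF S} (hT : Lev S l T) {C : ℝ} (hC : ∀ P, ‖T P‖ ≤ C) (k : ℕ)
    (P : XX S) : ‖τ (el M hT) - avg S (l + k) (T P)‖ ≤ 4 * C * ((S.N : ℝ)⁻¹) ^ k := by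
  set t := avg S (l + k) (T P) with ht
  have hT' : Lev S (l + k) (T - t • (1 : FF S)) :=
    (hT.mono (Nat.le_add_right l k)).sub (Lev.smul_one _ t)
  have h1 : τ (el M hT) - t = τ (el M hT') := by
    have h2 : el M hT' = el M hT - t • (1 : ↥(A0 M)) := by
      apply ext_toC
      show _ = M.toC ((el M hT : E) - t • (1 : E))
      rw [toC_sub, toC_smul, toC_one, toC_el, toC_el]
    rw [h2, map_sub, map_smul, hτ.map_one, smul_eq_mul, mul_one]
  rw [h1, tau_lev M hτ hT']
  have h3 : ∀ Q, ‖trf (l + k) (T - t • (1 : FF S)) Q‖ ≤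
      nz S (l + k) * (2 * C * ((S.N : ℝ)⁻¹) ^ k) := by
    intro Q
    have e1 : trf (l + k) (T - t • (1 : FF S)) Q =
        (nz S (l + k) : ℂ) * (avg S (l + k) (T Q) - avg S (l + k) (T P)) := by
      have e2 : trf (l + k) (T - t • (1 : FF S)) Q =
          (nz S (l + k) : ℂ) * avg S (l + k) ((T - t • (1 : FF S)) Q) := by
        unfold avg trf
        rw [← mul_assoc, mul_inv_cancel₀ (nzC _), one_mul]
      rw [e2]
      congr 1
      rw [Pi.sub_apply, Pi.smul_apply, Pi.one_apply, avg_sub, avg_smul, avg_one, mul_one, ht]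
    rw [e1, norm_mul, Complex.norm_natCast]
    have := avg_osc hT hC k Q P
    gcongr
  have h5 := tau_fbound M hτ (l + k) (trf_FN hT' (l + k)) (trf_even hT' (l + k)) h3
  have h6 : (nz S (l + k) : ℝ) ≠ 0 := Nat.cast_ne_zero.mpr (nz_pos S _).ne'
  have h7 : 2 * ((nz S (l + k) : ℝ) * (2 * C * ((S.N : ℝ)⁻¹) ^ k)) * (nz S (l + k) : ℝ)⁻¹ =
      4 * C * ((S.N : ℝ)⁻¹) ^ k := by
    have e : (nz S (l + k) : ℝ) * (nz S (l + k) : ℝ)⁻¹ = 1 := mul_inv_cancel₀ h6
    linear_combination (4 * C * ((S.N : ℝ)⁻¹) ^ k) * e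
  rw [h7] at h5
  exact h5

/-! ### continuity of tracial states and uniqueness -/

open scoped ComplexOrder in
lemma tracial_bound {A : Type} [CStarAlgebra A] {τ : A →ₗ[ℂ] ℂ} (h : IsTracialState τ) :
    ∃ C : ℝ, ∀ x, ‖τ x‖ ≤ C * ‖x‖ := by
  letI := CStarAlgebra.spectralOrder A
  letI := CStarAlgebra.spectralOrderedRing A
  let f : A →ₚ[ℂ] ℂ := PositiveLinearMap.mk₀ τ (fun x hx => by
    obtain ⟨y, rfl⟩ := CStarAlgebra.nonneg_iff_eq_star_mul_self.mp hx
    rw [Complex.nonneg_iff]
    exact ⟨(h.nonneg y).1, (h.nonneg y).2.symm⟩)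
  obtain ⟨C, hC⟩ := f.exists_norm_apply_le
  exact ⟨C, hC⟩

lemma tracial_continuous {A : Type} [CStarAlgebra A] {τ : A →ₗ[ℂ] ℂ} (h : IsTracialState τ) :
    Continuous τ := by
  obtain ⟨C, hC⟩ := tracial_bound h
  exact (LinearMap.mkContinuous τ C hC).continuous

include hτ in
lemma tau_eq_of_lev {x : E} {l : ℕ} (hx : Lev S l (M.toC x)) (hx' : x ∈ A0 M) :
    τ ⟨x, hx'⟩ = tau M ⟨x, hx'⟩ := by
  have h0 : (⟨x, hx'⟩ : ↥(A0 M)) = el M hx := by
    apply ext_toC
    rw [toC_el]
  obtain ⟨C, hC⟩ := hx.bf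
  have h1 : ∀ k : ℕ, ‖τ (el M hx) - tau M (el M hx)‖ ≤ 8 * C * ((S.N : ℝ)⁻¹) ^ k := by
    intro k
    have k1 := tau_close M hτ hx hC k (P0 S)
    have k2 := tau_close M (tau_isTracialState M) hx hC k (P0 S)
    calc ‖τ (el M hx) - tau M (el M hx)‖
        = ‖(τ (el M hx) - avg S (l + k) (M.toC x (P0 S))) -
            (tau M (el M hx) - avg S (l + k) (M.toC x (P0 S)))‖ := by congr 1; ring
      _ ≤ _ := norm_sub_le _ _
      _ ≤ 4 * C * ((S.N : ℝ)⁻¹) ^ k + 4 * C * ((S.N : ℝ)⁻¹) ^ k := add_le_add k1 k2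
      _ = _ := by ring
  have h2 : Tendsto (fun k : ℕ => 8 * C * ((S.N : ℝ)⁻¹) ^ k) atTop (𝓝 0) := by
    have h3 : Tendsto (fun k : ℕ => ((S.N : ℝ)⁻¹) ^ k) atTop (𝓝 0) := by
      apply tendsto_pow_atTop_nhds_zero_of_lt_one (by positivity)
      apply inv_lt_one_of_one_lt₀
      have := S.two_le
      exact_mod_cast (show 1 < S.N by omega)
    simpa using h3.const_mul (8 * C)
  have h4 : ‖τ (el M hx) - tau M (el M hx)‖ ≤ 0 :=
    ge_of_tendsto' h2 h1
  rw [h0]
  exact sub_eq_zero.mp (norm_le_zero_iff.mp h4)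

include hτ in
theorem tau_unique : τ = tau M := by
  apply LinearMap.ext
  intro x
  have h1 : Continuous fun y : ↥(A0 M) => τ y := tracial_continuous hτ
  have h2 : Continuous fun y : ↥(A0 M) => tau M y := tracial_continuous (tau_isTracialState M)
  have hcl : IsClosed {y : ↥(A0 M) | τ y = tau M y} := isClosed_eq h1 h2
  have hd : Dense {y : ↥(A0 M) | τ y = tau M y} := by
    rw [Metric.dense_iff]
    intro y r hr
    obtain ⟨l, z, hz, hyz⟩ := A0_approx M y.2 (half_pos hr)
    refine ⟨⟨z, mem_A0 M ⟨l, hz⟩⟩, ?_, tau_eq_of_lev M hτ hz _⟩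
    rw [Metric.mem_ball, dist_comm, dist_eq_norm]
    have : ‖y - ⟨z, mem_A0 M ⟨l, hz⟩⟩‖ ≤ r / 2 := hyz
    linarith
  have := hcl.closure_eq ▸ hd.closure_eq
  have hx : x ∈ {y : ↥(A0 M) | τ y = tau M y} := by
    rw [this]
    exact Set.mem_univ x
  exact hx

theorem exists_unique_trace : ∃! τ : ↥(A0 M) →ₗ[ℂ] ℂ, IsTracialState τ :=
  ⟨tau M, tau_isTracialState M, fun _ h => tau_unique M h⟩

end Ambient

end

end Pool.Agent.H252.VR
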